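import Mathlib

/-! Half beta integrals. -/

namespace Pool.Agent.X178.AE

open intervalIntegral

/-- the integrand -/
noncomputable def bet (a b : ℕ) (x : ℝ) : ℝ := ((1 + x) / 2) ^ a * ((1 - x) / 2) ^ b

lemma bet_cont (a b : ℕ) : Continuous (bet a b) := by
  unfold bet
  fun_prop

lemma bet_int (a b : ℕ) (u v : ℝ) : IntervalIntegrable (bet a b) MeasureTheory.volume u v :=
  (bet_cont a b).intervalIntegrable u v

lemma bet_neg (a b : ℕ) (x : ℝ) : bet a b (-x) = bet b a x := by
  unfold bet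
  rw [mul_comm]
  congr 2
  ring_nf

lemma bet_full (b : ℕ) : ∀ a : ℕ, ∫ x in (-1 : ℝ)..1, bet a b x =
    2 * (a.factorial * b.factorial / (a + b + 1).factorial : ℝ) := by
  induction b with
  | zero =>
    intro a
    have h1 : ∀ x ∈ Set.uIcc (-1 : ℝ) 1, HasDerivAt (fun x : ℝ => 2 / ((a : ℝ) + 1) * ((1 + x) / 2) ^ (a + 1))
        (bet a 0 x) x := by
      intro x _
      have h2 : HasDerivAt (fun x : ℝ => ((1 + x) / 2)) (1 / 2) x :=
        ((hasDerivAt_id x).const_add 1).div_const 2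
      have h3 := (h2.fun_pow (a + 1)).const_mul (2 / ((a : ℝ) + 1))
      refine h3.congr_deriv ?_
      simp only [bet, pow_zero, mul_one, Nat.add_sub_cancel]
      have : (a : ℝ) + 1 ≠ 0 := by positivity
      push_cast
      field_simp
    rw [integral_eq_sub_of_hasDerivAt h1 (bet_int a 0 _ _)]
    have : (a : ℝ) + 1 ≠ 0 := by positivity
    simp only [add_zero, Nat.factorial_zero, Nat.cast_one, mul_one]
    rw [Nat.factorial_succ]
    have hf : (a.factorial : ℝ) ≠ 0 := by positivity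
    push_cast
    field_simp
    norm_num
  | succ b ih =>
    intro a
    have h1 : ∀ x ∈ Set.uIcc (-1 : ℝ) 1, HasDerivAt (fun x : ℝ => bet (a + 1) (b + 1) x)
        (((a : ℝ) + 1) / 2 * bet a (b + 1) x - ((b : ℝ) + 1) / 2 * bet (a + 1) b x) x := by
      intro x _
      have h2 : HasDerivAt (fun x : ℝ => ((1 + x) / 2)) (1 / 2) x :=
        ((hasDerivAt_id x).const_add 1).div_const 2
      have h3 : HasDerivAt (fun x : ℝ => ((1 - x) / 2)) (-1 / 2) x :=
        ((hasDerivAt_id x).const_sub 1).div_const 2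
      have h4 := (h2.fun_pow (a + 1)).fun_mul (h3.fun_pow (b + 1))
      refine h4.congr_deriv ?_
      simp only [bet, Nat.add_sub_cancel]
      push_cast
      ring
    have h2 : ∫ x in (-1 : ℝ)..1, (((a : ℝ) + 1) / 2 * bet a (b + 1) x - ((b : ℝ) + 1) / 2 * bet (a + 1) b x)
        = bet (a + 1) (b + 1) 1 - bet (a + 1) (b + 1) (-1) :=
      integral_eq_sub_of_hasDerivAt h1 (((bet_int _ _ _ _).const_mul _).sub ((bet_int _ _ _ _).const_mul _))
    rw [integral_sub ((bet_int _ _ _ _).const_mul _) ((bet_int _ _ _ _).const_mul _),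
      integral_const_mul, integral_const_mul, ih (a + 1)] at h2
    have h3 : bet (a + 1) (b + 1) 1 = 0 := by simp [bet]
    have h4 : bet (a + 1) (b + 1) (-1) = 0 := by simp [bet]
    rw [h3, h4, sub_zero] at h2
    have ha : (a : ℝ) + 1 ≠ 0 := by positivity
    have h5 : ∫ x in (-1 : ℝ)..1, bet a (b + 1) x = (((b : ℝ) + 1) / (a + 1)) *
        (2 * ((a + 1).factorial * b.factorial / (a + 1 + b + 1).factorial : ℝ)) := by
      rw [div_mul_eq_mul_div, eq_div_iff ha]
      linarith
    rw [h5]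
    have h6 : a + 1 + b + 1 = a + (b + 1) + 1 := by ring
    rw [h6, Nat.factorial_succ a, Nat.factorial_succ b]
    have hf : ((a + (b + 1) + 1).factorial : ℝ) ≠ 0 := by positivity
    push_cast
    field_simp

lemma bet_half {a b : ℕ} (hab : b ≤ a) :
    (a.factorial * b.factorial / (a + b + 1).factorial : ℝ) ≤ ∫ x in (0 : ℝ)..1, bet a b x := by
  have h1 : ∫ x in (-1 : ℝ)..1, bet a b x = (∫ x in (-1 : ℝ)..0, bet a b x) + ∫ x in (0 : ℝ)..1, bet a b x :=
    (integral_add_adjacent_intervals (bet_int _ _ _ _) (bet_int _ _ _ _)).symm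
  have h2 : ∫ x in (-1 : ℝ)..0, bet a b x = ∫ x in (0 : ℝ)..1, bet b a x := by
    have := intervalIntegral.integral_comp_neg (a := 0) (b := 1) (fun x => bet a b x)
    simp only [bet_neg, neg_zero] at this
    rw [this]
  have h3 : ∫ x in (0 : ℝ)..1, bet b a x ≤ ∫ x in (0 : ℝ)..1, bet a b x := by
    refine integral_mono_on (by norm_num) (bet_int _ _ _ _) (bet_int _ _ _ _) fun x hx => ?_
    unfold bet
    have hx0 : 0 ≤ x := hx.1
    have hx1 : x ≤ 1 := hx.2
    obtain ⟨k, rfl⟩ := Nat.exists_eq_add_of_le hab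
    have h4 : ((1 - x) / 2) ^ k ≤ ((1 + x) / 2) ^ k :=
      pow_le_pow_left₀ (by linarith) (by linarith) k
    have h5 : 0 ≤ ((1 + x) / 2) ^ b * ((1 - x) / 2) ^ b := by
      apply mul_nonneg <;> apply pow_nonneg <;> linarith
    calc ((1 + x) / 2) ^ b * ((1 - x) / 2) ^ (b + k)
        = ((1 + x) / 2) ^ b * ((1 - x) / 2) ^ b * ((1 - x) / 2) ^ k := by ring
      _ ≤ ((1 + x) / 2) ^ b * ((1 - x) / 2) ^ b * ((1 + x) / 2) ^ k := by gcongr
      _ = _ := by ring
  have h4 := bet_full b a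
  rw [h1, h2] at h4
  linarith

/-- the weight `1/(n-t)` in terms of a half beta integral -/
lemma weight_le {n t : ℕ} (ht : t < n) {c : ℝ}
    (hc : ((t.factorial : ℝ) * (n - 1 - t).factorial / n.factorial) ≤ c) :
    1 / ((n : ℝ) - t) ≤ (n.choose t : ℝ) * c := by
  have h1 : (n.choose t : ℝ) * ((t.factorial : ℝ) * (n - 1 - t).factorial / n.factorial) = 1 / ((n : ℝ) - t) := by
    have h2 := Nat.choose_mul_factorial_mul_factorial ht.le
    have h3 : (n - t).factorial = (n - t) * (n - 1 - t).factorial := by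
      have : n - t = (n - 1 - t) + 1 := by omega
      rw [this, Nat.factorial_succ]
    rw [h3] at h2
    have h4 : (n.choose t : ℝ) * t.factorial * (((n : ℝ) - t) * (n - 1 - t).factorial) = n.factorial := by
      rw [← h2]
      push_cast [Nat.cast_sub ht.le]
      ring
    have hpos : (n : ℝ) - t ≠ 0 := by
      have : (t : ℝ) < n := by exact_mod_cast ht
      linarith
    have hf : (n.factorial : ℝ) ≠ 0 := by positivity
    rw [← mul_div_assoc, div_eq_div_iff hf hpos, ← h4]
    ring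
  rw [← h1]
  gcongr

lemma weight_hi {n t : ℕ} (ht : t < n) (h : n - 1 - t ≤ t) :
    1 / ((n : ℝ) - t) ≤ (n.choose t : ℝ) * ∫ x in (0 : ℝ)..1, bet t (n - 1 - t) x := by
  refine weight_le ht ?_
  have := bet_half h
  have h2 : t + (n - 1 - t) + 1 = n := by omega
  rwa [h2] at this

lemma weight_lo {n t : ℕ} (ht : t < n) (h : t ≤ n - 1 - t) :
    1 / ((n : ℝ) - t) ≤ (n.choose t : ℝ) * ∫ x in (0 : ℝ)..1, bet (n - 1 - t) t x := by
  refine weight_le ht ?_
  have := bet_half h
  have h2 : (n - 1 - t) + t + 1 = n := by omega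
  rw [h2] at this
  rwa [mul_comm ((t.factorial : ℝ))]

end Pool.Agent.X178.AE
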