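import Mathlib

/-! Expected positive part of a biased walk: bounds by exponential moments. -/

namespace Pool.Agent.X178.AE

open Finset

lemma exp_half_le : Real.exp (1 / 2) ≤ 2 := by
  have h1 : Real.exp (1 / 2) * Real.exp (1 / 2) = Real.exp 1 := by
    rw [← Real.exp_add]; norm_num
  have h2 := Real.exp_one_lt_three
  by_contra h
  push Not at h
  nlinarith

lemma exp_three_half_le : Real.exp (3 / 2) ≤ 5 := by
  have h1 : Real.exp (3 / 2) * Real.exp (3 / 2) = Real.exp 1 ^ 3 := by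
    rw [← Real.exp_add, ← Real.exp_nat_mul]; norm_num
  have h2 := Real.exp_one_lt_d9
  have h3 : Real.exp 1 ^ 3 ≤ (2.7182818286 : ℝ) ^ 3 := pow_le_pow_left₀ (Real.exp_pos 1).le h2.le 3
  by_contra h
  push Not at h
  nlinarith

section

variable {ι : Type*} (s : Finset ι) (w : ι → ℝ) (X : ι → ℤ) (M : ℕ) (δ : ℝ)

/-- exponential moments of the walk -/
def HasExp : Prop := ∀ θ : ℝ, ∑ i ∈ s, w i * Real.exp (θ * X i) =
  ((1 - δ) / 2 * Real.exp θ + (1 + δ) / 2 * Real.exp (-θ)) ^ M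

variable {s w X M δ}

lemma mgf_eq (θ : ℝ) : (1 - δ) / 2 * Real.exp θ + (1 + δ) / 2 * Real.exp (-θ) =
    Real.cosh θ - δ * Real.sinh θ := by
  rw [Real.cosh_eq, Real.sinh_eq]; ring

lemma pos_le_exp {θ : ℝ} (hθ : 0 < θ) (x : ℝ) : max x 0 ≤ 1 / θ * Real.exp (θ * x) := by
  refine max_le ?_ (by positivity)
  have h1 := Real.add_one_le_exp (θ * x)
  rw [one_div, inv_mul_eq_div, le_div_iff₀ hθ]
  linarith

lemma sum_pos_le (hw : ∀ i ∈ s, 0 ≤ w i) (h : HasExp s w X M δ) {θ : ℝ} (hθ : 0 < θ) :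
    ∑ i ∈ s, w i * max (X i : ℝ) 0 ≤
      1 / θ * ((1 - δ) / 2 * Real.exp θ + (1 + δ) / 2 * Real.exp (-θ)) ^ M := by
  rw [← h θ, mul_sum]
  refine sum_le_sum fun i hi => ?_
  have := mul_le_mul_of_nonneg_left (pos_le_exp hθ (X i : ℝ)) (hw i hi)
  linarith

lemma mgf_nonneg (h0 : 0 ≤ δ) (h1 : δ ≤ 1) (θ : ℝ) :
    0 ≤ (1 - δ) / 2 * Real.exp θ + (1 + δ) / 2 * Real.exp (-θ) := by
  have := Real.exp_pos θ
  have := Real.exp_pos (-θ)
  have : 0 ≤ 1 - δ := by linarith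
  positivity

lemma bound_sqrt (hw : ∀ i ∈ s, 0 ≤ w i) (h : HasExp s w X M δ) (h0 : 0 ≤ δ) (h1 : δ ≤ 1)
    (hM : 1 ≤ M) : ∑ i ∈ s, w i * max (X i : ℝ) 0 ≤ Real.exp (1 / 2) * Real.sqrt M := by
  have hMpos : (0 : ℝ) < M := by exact_mod_cast hM
  have hs : 0 < Real.sqrt M := Real.sqrt_pos.2 hMpos
  have h2 := sum_pos_le hw h (θ := 1 / Real.sqrt M) (by positivity)
  refine h2.trans ?_
  have h3 : ((1 - δ) / 2 * Real.exp (1 / Real.sqrt M) + (1 + δ) / 2 * Real.exp (-(1 / Real.sqrt M))) ^ M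
      ≤ Real.exp (1 / 2) := by
    have h4 : (1 - δ) / 2 * Real.exp (1 / Real.sqrt M) + (1 + δ) / 2 * Real.exp (-(1 / Real.sqrt M)) ≤
        Real.exp ((1 / Real.sqrt M) ^ 2 / 2) := by
      rw [mgf_eq]
      have h5 := Real.cosh_le_exp_half_sq (1 / Real.sqrt M)
      have h6 : 0 ≤ Real.sinh (1 / Real.sqrt M) := Real.sinh_nonneg_iff.2 (by positivity)
      have := mul_nonneg h0 h6
      linarith
    refine (pow_le_pow_left₀ (mgf_nonneg h0 h1 _) h4 M).trans ?_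
    rw [← Real.exp_nat_mul]
    apply Real.exp_le_exp.2
    rw [div_pow, Real.sq_sqrt hMpos.le]
    field_simp
    norm_num
  rw [one_div_one_div, mul_comm]
  exact mul_le_mul_of_nonneg_right h3 hs.le

lemma bound_gauss (hw : ∀ i ∈ s, 0 ≤ w i) (h : HasExp s w X M δ) (h0 : 0 < δ) (h1 : δ ≤ 1) :
    ∑ i ∈ s, w i * max (X i : ℝ) 0 ≤ 1 / δ * Real.exp (-(δ ^ 2 * M / 4)) := by
  refine (sum_pos_le hw h h0).trans ?_
  refine mul_le_mul_of_nonneg_left ?_ (by positivity)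
  have h4 : (1 - δ) / 2 * Real.exp δ + (1 + δ) / 2 * Real.exp (-δ) ≤ Real.exp (-(δ ^ 2 / 4)) := by
    rw [mgf_eq]
    have h5 := Real.cosh_le_exp_half_sq δ
    have h6 : δ ≤ Real.sinh δ := Real.self_le_sinh_iff.2 h0.le
    have h7 : |δ ^ 2 / 2| ≤ 1 := by
      rw [abs_of_nonneg (by positivity)]
      nlinarith
    have h8 := (abs_le.1 (Real.abs_exp_sub_one_sub_id_le h7)).2
    have h9 := Real.add_one_le_exp (-(δ ^ 2 / 4))
    have h10 : δ * δ ≤ δ * Real.sinh δ := mul_le_mul_of_nonneg_left h6 h0.le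
    have h11 : δ ^ 2 ≤ 1 := by nlinarith
    nlinarith [mul_nonneg (sq_nonneg δ) (sub_nonneg.2 h11)]
  refine (pow_le_pow_left₀ (mgf_nonneg h0.le h1 _) h4 M).trans ?_
  rw [← Real.exp_nat_mul]
  apply Real.exp_le_exp.2
  linarith

/-- the dyadic terms -/
noncomputable def term (j : ℕ) (δ : ℝ) (M : ℕ) : ℝ :=
  (1 / 2) ^ j * (4 ^ j * δ * (M * Real.exp (-(4 ^ j * δ ^ 2 / 4 * M))))

lemma term_nonneg (j : ℕ) (h0 : 0 ≤ δ) : 0 ≤ term j δ M := by
  unfold term
  have := Real.exp_pos (-(4 ^ j * δ ^ 2 / 4 * M))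
  positivity

lemma term_eq (j : ℕ) (δ : ℝ) (M : ℕ) :
    term j δ M = Real.sqrt M * (2 ^ j * (δ * Real.sqrt M)) *
      Real.exp (-((2 ^ j * (δ * Real.sqrt M)) ^ 2 / 4)) := by
  unfold term
  have h1 : (M : ℝ) = Real.sqrt M * Real.sqrt M := (Real.mul_self_sqrt (by positivity)).symm
  have h2 : (4 : ℝ) ^ j = 2 ^ j * 2 ^ j := by
    rw [← mul_pow]; norm_num
  have h3 : (1 / 2 : ℝ) ^ j * 2 ^ j = 1 := by
    rw [← mul_pow]; norm_num
  have h4 : (4 : ℝ) ^ j * δ ^ 2 / 4 * M = (2 ^ j * (δ * Real.sqrt M)) ^ 2 / 4 := by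
    rw [h2, mul_pow, mul_pow, Real.sq_sqrt (by positivity)]
    ring
  rw [h4, h2]
  calc (1 / 2 : ℝ) ^ j * (2 ^ j * 2 ^ j * δ * (M * Real.exp (-((2 ^ j * (δ * Real.sqrt M)) ^ 2 / 4))))
      = ((1 / 2 : ℝ) ^ j * 2 ^ j) * (2 ^ j * δ * (M * Real.exp (-((2 ^ j * (δ * Real.sqrt M)) ^ 2 / 4)))) := by ring
    _ = 2 ^ j * δ * (M * Real.exp (-((2 ^ j * (δ * Real.sqrt M)) ^ 2 / 4))) := by rw [h3, one_mul]
    _ = 2 ^ j * δ * ((Real.sqrt M * Real.sqrt M) * Real.exp (-((2 ^ j * (δ * Real.sqrt M)) ^ 2 / 4))) := by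
        rw [← h1]
    _ = _ := by ring

theorem bound_dyadic (hw : ∀ i ∈ s, 0 ≤ w i) (h : HasExp s w X M δ) (h0 : 0 < δ) (h1 : δ ≤ 1)
    (hX : M = 0 → ∀ i ∈ s, X i = 0) {J : ℕ} (hJ : 1 ≤ 2 ^ J * δ) :
    ∑ i ∈ s, w i * max (X i : ℝ) 0 ≤ 5 * ∑ j ∈ range (J + 1), term j δ M := by
  have hnn : ∀ j, 0 ≤ term j δ M := fun j => term_nonneg j h0.le
  rcases Nat.eq_zero_or_pos M with hM | hM
  · have : ∑ i ∈ s, w i * max (X i : ℝ) 0 = 0 := by
      refine sum_eq_zero fun i hi => ?_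
      rw [hX hM i hi]
      simp
    rw [this]
    exact mul_nonneg (by norm_num) (sum_nonneg fun j _ => hnn j)
  have hMpos : (0 : ℝ) < M := by exact_mod_cast hM
  have hM1 : (1 : ℝ) ≤ Real.sqrt M := by
    rw [Real.one_le_sqrt]
    exact_mod_cast hM
  have hs : 0 < Real.sqrt M := Real.sqrt_pos.2 hMpos
  have hex : ∃ j : ℕ, 1 ≤ 2 ^ j * (δ * Real.sqrt M) := by
    refine ⟨J, ?_⟩
    have : 2 ^ J * δ * 1 ≤ 2 ^ J * δ * Real.sqrt M := mul_le_mul_of_nonneg_left hM1 (by positivity)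
    linarith
  classical
  have hfind := Nat.find_spec hex
  have hmin : Nat.find hex ≤ J := by
    apply Nat.find_min'
    have : 2 ^ J * δ * 1 ≤ 2 ^ J * δ * Real.sqrt M := mul_le_mul_of_nonneg_left hM1 (by positivity)
    linarith
  have hle : ∑ i ∈ s, w i * max (X i : ℝ) 0 ≤ 5 * term (Nat.find hex) δ M := by
    rcases Nat.eq_zero_or_pos (Nat.find hex) with hz | hz
    · rw [hz] at hfind ⊢
      simp only [pow_zero, one_mul] at hfind
      have h2 := bound_gauss hw h h0 h1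
      have h3 : term 0 δ M = δ * M * Real.exp (-(δ ^ 2 * M / 4)) := by
        unfold term
        simp only [pow_zero, one_mul]
        ring_nf
      have h4 : 1 / δ ≤ δ * M := by
        rw [div_le_iff₀ h0]
        have : (M : ℝ) = Real.sqrt M * Real.sqrt M := (Real.mul_self_sqrt (by positivity)).symm
        nlinarith
      have h5 : 1 / δ * Real.exp (-(δ ^ 2 * M / 4)) ≤ δ * M * Real.exp (-(δ ^ 2 * M / 4)) :=
        mul_le_mul_of_nonneg_right h4 (Real.exp_pos _).le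
      rw [← h3] at h5
      have h6 := hnn 0
      linarith
    · have h2 := bound_sqrt hw h h0.le h1 hM
      set j := Nat.find hex with hj
      have h3 : ¬ 1 ≤ 2 ^ (j - 1) * (δ * Real.sqrt M) := Nat.find_min hex (by omega)
      have h4 : 2 ^ j * (δ * Real.sqrt M) < 2 := by
        have h5 : (2 : ℝ) ^ j = 2 * 2 ^ (j - 1) := by
          rw [← pow_succ']
          congr 1
          omega
        rw [h5]
        push Not at h3
        linarith
      rw [term_eq]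
      set z := 2 ^ j * (δ * Real.sqrt M) with hz'
      have h5 : Real.exp (-1) ≤ Real.exp (-(z ^ 2 / 4)) := by
        apply Real.exp_le_exp.2
        nlinarith
      have h6 : Real.sqrt M * 1 * Real.exp (-1) ≤ Real.sqrt M * z * Real.exp (-(z ^ 2 / 4)) := by
        gcongr
      have h7 : Real.exp (1 / 2) ≤ 5 * Real.exp (-1) := by
        have h8 := exp_three_half_le
        have h9 : Real.exp (1 / 2) = Real.exp (3 / 2) * Real.exp (-1) := by
          rw [← Real.exp_add]; norm_num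
        rw [h9]
        exact mul_le_mul_of_nonneg_right h8 (Real.exp_pos _).le
      have h8 : Real.exp (1 / 2) * Real.sqrt M ≤ 5 * Real.exp (-1) * Real.sqrt M :=
        mul_le_mul_of_nonneg_right h7 hs.le
      linarith
  refine hle.trans (mul_le_mul_of_nonneg_left ?_ (by norm_num))
  exact single_le_sum (f := fun j => term j δ M) (fun j _ => hnn j) (mem_range.2 (by omega))

theorem bound_trivial (hw : ∀ i ∈ s, 0 ≤ w i) (h : HasExp s w X M δ) (h0 : 0 ≤ δ) (h1 : δ ≤ 1)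
    (hX : M = 0 → ∀ i ∈ s, X i = 0) :
    ∑ i ∈ s, w i * max (X i : ℝ) 0 ≤ 2 * Real.sqrt M := by
  rcases Nat.eq_zero_or_pos M with hM | hM
  · have : ∑ i ∈ s, w i * max (X i : ℝ) 0 = 0 := by
      refine sum_eq_zero fun i hi => ?_
      rw [hX hM i hi]
      simp
    rw [this]
    positivity
  · refine (bound_sqrt hw h h0 h1 hM).trans ?_
    exact mul_le_mul_of_nonneg_right exp_half_le (Real.sqrt_nonneg _)

lemma int_pos_le {θ : ℝ} (hθ : Real.log 2 ≤ θ) (x : ℤ) : max (x : ℝ) 0 ≤ Real.exp (θ * (x - 1)) := by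
  refine max_le ?_ (Real.exp_pos _).le
  rcases le_or_gt x 0 with hx | hx
  · have : (x : ℝ) ≤ 0 := by exact_mod_cast hx
    exact this.trans (Real.exp_pos _).le
  · obtain ⟨k, hk⟩ : ∃ k : ℕ, x = k + 1 := ⟨(x - 1).toNat, by omega⟩
    subst hk
    push_cast
    have h1 : (k : ℝ) + 1 ≤ 2 ^ k := by
      have : k + 1 ≤ 2 ^ k := Nat.lt_two_pow_self
      exact_mod_cast this
    have h2 : (2 : ℝ) ^ k = Real.exp (Real.log 2 * k) := by
      rw [mul_comm, Real.exp_nat_mul, Real.exp_log (by norm_num)]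
    have h3 : Real.exp (Real.log 2 * k) ≤ Real.exp (θ * k) :=
      Real.exp_le_exp.2 (mul_le_mul_of_nonneg_right hθ (by positivity))
    have h4 : θ * ((k : ℝ) + 1 - 1) = θ * k := by ring
    rw [h4]
    linarith

theorem bound_far (hw : ∀ i ∈ s, 0 ≤ w i) (h : HasExp s w X M δ) (h0 : 1 / 2 ≤ δ) (h1 : δ < 1)
    (hX : M = 0 → ∀ i ∈ s, X i = 0) :
    ∑ i ∈ s, w i * max (X i : ℝ) 0 ≤ 1 - δ := by
  rcases Nat.eq_zero_or_pos M with hM | hM
  · have : ∑ i ∈ s, w i * max (X i : ℝ) 0 = 0 := by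
      refine sum_eq_zero fun i hi => ?_
      rw [hX hM i hi]
      simp
    rw [this]
    linarith
  set r := (1 - δ) / 2 with hr
  have hr0 : 0 < r := by rw [hr]; linarith
  have hr1 : r ≤ 1 / 4 := by rw [hr]; linarith
  set a := Real.sqrt r with ha
  have ha0 : 0 < a := Real.sqrt_pos.2 hr0
  have ha2 : a * a = r := Real.mul_self_sqrt hr0.le
  have ha1 : a ≤ 1 / 2 := by
    by_contra hh
    push Not at hh
    nlinarith
  set θ := -Real.log a with hθ
  have he1 : Real.exp (-θ) = a := by rw [hθ, neg_neg, Real.exp_log ha0]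
  have he2 : Real.exp θ = 1 / a := by rw [hθ, Real.exp_neg, Real.exp_log ha0, one_div]
  have hlog : Real.log 2 ≤ θ := by
    rw [hθ, ← Real.log_inv]
    apply Real.log_le_log (by norm_num)
    rw [le_inv_comm₀ (by norm_num) ha0]
    linarith
  have h2 : ∑ i ∈ s, w i * max (X i : ℝ) 0 ≤ ∑ i ∈ s, a * (w i * Real.exp (θ * X i)) := by
    refine sum_le_sum fun i hi => ?_
    have h3 := int_pos_le hlog (X i)
    have h4 : Real.exp (θ * (X i - 1)) = a * Real.exp (θ * X i) := by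
      rw [← he1, ← Real.exp_add]
      congr 1
      ring
    rw [h4] at h3
    have := mul_le_mul_of_nonneg_left h3 (hw i hi)
    linarith
  rw [← mul_sum, h θ, he1, he2] at h2
  have h5 : (1 - δ) / 2 * (1 / a) + (1 + δ) / 2 * a ≤ 2 * a := by
    have h6 : (1 - δ) / 2 * (1 / a) = a := by
      rw [← hr, ← ha2]
      field_simp
    rw [h6]
    nlinarith
  have h6 : 0 ≤ (1 - δ) / 2 * (1 / a) + (1 + δ) / 2 * a := by
    have : 0 ≤ 1 - δ := by linarith
    have : 0 ≤ 1 + δ := by linarith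
    positivity
  have h7 : ((1 - δ) / 2 * (1 / a) + (1 + δ) / 2 * a) ^ M ≤ 2 * a := by
    refine (pow_le_pow_left₀ h6 h5 M).trans ?_
    calc (2 * a) ^ M ≤ (2 * a) ^ 1 := pow_le_pow_of_le_one (by positivity) (by linarith) hM
      _ = 2 * a := pow_one _
  have h8 : a * ((1 - δ) / 2 * (1 / a) + (1 + δ) / 2 * a) ^ M ≤ a * (2 * a) :=
    mul_le_mul_of_nonneg_left h7 ha0.le
  have h9 : a * (2 * a) = 1 - δ := by
    have : a * (2 * a) = 2 * (a * a) := by ring
    rw [this, ha2, hr]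
    ring
  linarith

end

end Pool.Agent.X178.AE
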