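import Mathlib

/-! Random orderings: active sets, the swap average and the stopping inequality. -/

namespace Pool.Agent.X178.AE

open Finset Equiv

variable {n : ℕ}

/-- the set of the first `t` vertices of the ordering `σ` -/
def act (σ : Perm (Fin n)) (t : ℕ) : Finset (Fin n) :=
  univ.filter (fun v => ((σ.symm v : Fin n) : ℕ) < t)

lemma mem_act {σ : Perm (Fin n)} {t : ℕ} {v : Fin n} :
    v ∈ act σ t ↔ ((σ.symm v : Fin n) : ℕ) < t := by simp [act]

lemma act_eq_map (σ : Perm (Fin n)) (t : ℕ) :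
    act σ t = (univ.filter (fun i : Fin n => (i : ℕ) < t)).map σ.toEmbedding := by
  ext v
  simp only [mem_act, mem_map, mem_filter, mem_univ, true_and, Equiv.toEmbedding_apply]
  constructor
  · intro h
    exact ⟨σ.symm v, h, by simp⟩
  · rintro ⟨i, hi, rfl⟩
    simpa using hi

lemma card_act (σ : Perm (Fin n)) {t : ℕ} (ht : t ≤ n) : (act σ t).card = t := by
  rw [act_eq_map, card_map, Fin.card_filter_val_lt]
  exact min_eq_right ht

lemma act_swap_eq (σ : Perm (Fin n)) {t : ℕ} (ht : t < n) (j : Fin n) (hj : t ≤ j) :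
    act (σ * swap ⟨t, ht⟩ j) t = act σ t := by
  ext v
  simp only [mem_act]
  have h1 : (σ * swap ⟨t, ht⟩ j).symm v = swap ⟨t, ht⟩ j (σ.symm v) := by
    rw [Equiv.symm_apply_eq]
    simp [Perm.mul_apply]
  rw [h1]
  by_cases h2 : σ.symm v = ⟨t, ht⟩
  · rw [h2, swap_apply_left]
    simp
    omega
  · by_cases h3 : σ.symm v = j
    · rw [h3, swap_apply_right]
      simp
      omega
    · rw [swap_apply_of_ne_of_ne h2 h3]

lemma act_swap_succ (σ : Perm (Fin n)) {t : ℕ} (ht : t < n) (j : Fin n) (hj : t ≤ j) :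
    act (σ * swap ⟨t, ht⟩ j) (t + 1) = insert (σ j) (act σ t) := by
  ext v
  simp only [mem_act, mem_insert]
  have h1 : (σ * swap ⟨t, ht⟩ j).symm v = swap ⟨t, ht⟩ j (σ.symm v) := by
    rw [Equiv.symm_apply_eq]
    simp [Perm.mul_apply]
  rw [h1]
  have h4 : v = σ j ↔ σ.symm v = j := by
    rw [Equiv.symm_apply_eq]
  rw [h4]
  by_cases h2 : σ.symm v = ⟨t, ht⟩
  · rw [h2, swap_apply_left]
    simp only [lt_irrefl, or_false]
    constructor
    · intro h
      apply Fin.ext
      simp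
      omega
    · intro h
      rw [← h]
      simp
  · by_cases h3 : σ.symm v = j
    · rw [h3, swap_apply_right]
      simp
    · rw [swap_apply_of_ne_of_ne h2 h3]
      have h5 : ((σ.symm v : Fin n) : ℕ) ≠ t := fun h => h2 (Fin.ext h)
      simp only [h3, false_or]
      omega

/-- swap average -/
lemma swap_avg {t : ℕ} (ht : t < n) (g : Perm (Fin n) → ℝ)
    (hg : ∀ σ (j : Fin n), t ≤ j → g (σ * swap ⟨t, ht⟩ j) = g σ) (F : Finset (Fin n) → ℝ) :
    ((n : ℝ) - t) * ∑ σ, g σ * (F (act σ (t + 1)) - F (act σ t)) =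
      ∑ σ, g σ * ∑ v ∈ (act σ t)ᶜ, (F (insert v (act σ t)) - F (act σ t)) := by
  have h1 : ∀ j : Fin n, t ≤ j → ∑ σ, g σ * (F (act σ (t + 1)) - F (act σ t)) =
      ∑ σ, g σ * (F (insert (σ j) (act σ t)) - F (act σ t)) := by
    intro j hj
    rw [← Equiv.sum_comp (Equiv.mulRight (swap ⟨t, ht⟩ j))]
    refine sum_congr rfl fun σ _ => ?_
    simp only [Equiv.coe_mulRight]
    rw [hg σ j hj, act_swap_eq σ ht j hj, act_swap_succ σ ht j hj]
  have hcard : ((univ.filter (fun j : Fin n => t ≤ j)).card : ℝ) = (n : ℝ) - t := by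
    have h2 : (univ.filter (fun j : Fin n => t ≤ j)).card + (univ.filter (fun j : Fin n => (j : ℕ) < t)).card = n := by
      have := Finset.card_filter_add_card_filter_not (s := (univ : Finset (Fin n))) (fun j : Fin n => t ≤ (j:ℕ))
      simp only [not_le] at this
      simpa using this
    rw [Fin.card_filter_val_lt, min_eq_right ht.le] at h2
    have h3 : ((univ.filter (fun j : Fin n => t ≤ j)).card : ℝ) + t = n := by exact_mod_cast h2
    linarith
  calc ((n : ℝ) - t) * ∑ σ, g σ * (F (act σ (t + 1)) - F (act σ t))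
      = ∑ j ∈ univ.filter (fun j : Fin n => t ≤ j), ∑ σ, g σ * (F (act σ (t + 1)) - F (act σ t)) := by
        rw [sum_const, nsmul_eq_mul, hcard]
    _ = ∑ j ∈ univ.filter (fun j : Fin n => t ≤ j), ∑ σ, g σ * (F (insert (σ j) (act σ t)) - F (act σ t)) := by
        refine sum_congr rfl fun j hj => h1 j (by simpa using hj)
    _ = ∑ σ, ∑ j ∈ univ.filter (fun j : Fin n => t ≤ j), g σ * (F (insert (σ j) (act σ t)) - F (act σ t)) := sum_comm
    _ = _ := by
        refine sum_congr rfl fun σ _ => ?_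
        rw [← mul_sum]
        congr 1
        refine sum_bij (fun j _ => σ j) ?_ ?_ ?_ ?_
        · intro j hj
          simp only [mem_filter, mem_univ, true_and] at hj
          simp [mem_act, hj]
        · intro a _ b _ h
          exact σ.injective h
        · intro v hv
          refine ⟨σ.symm v, ?_, by simp⟩
          simp only [mem_compl, mem_act, not_lt] at hv
          simpa using hv
        · intro j _
          rfl

/-- telescoping to a stopping time -/
lemma telescope (a : ℕ → ℝ) {m t₀ τ : ℕ} (hτ : τ ≤ m) (ht : t₀ ≤ m) :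
    a τ = a t₀ + ∑ t ∈ Ico t₀ m, (if t < τ then (1 : ℝ) else 0) * (a (t + 1) - a t)
      - ∑ t ∈ range t₀, (if t < τ then (0 : ℝ) else 1) * (a (t + 1) - a t) := by
  rcases le_total t₀ τ with h | h
  · have h1 : ∑ t ∈ range t₀, (if t < τ then (0 : ℝ) else 1) * (a (t + 1) - a t) = 0 := by
      refine sum_eq_zero fun t ht' => ?_
      rw [if_pos (lt_of_lt_of_le (mem_range.1 ht') h), zero_mul]
    have h2 : ∑ t ∈ Ico t₀ m, (if t < τ then (1 : ℝ) else 0) * (a (t + 1) - a t) =
        ∑ t ∈ Ico t₀ τ, (a (t + 1) - a t) := by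
      rw [← sum_subset (Ico_subset_Ico_right hτ)]
      · refine sum_congr rfl fun t ht' => ?_
        rw [if_pos (mem_Ico.1 ht').2, one_mul]
      · intro t ht1 ht2
        have : ¬ t < τ := fun h3 => ht2 (mem_Ico.2 ⟨(mem_Ico.1 ht1).1, h3⟩)
        rw [if_neg this, zero_mul]
    rw [h1, h2, sum_Ico_sub _ h]
    ring
  · have h1 : ∑ t ∈ Ico t₀ m, (if t < τ then (1 : ℝ) else 0) * (a (t + 1) - a t) = 0 := by
      refine sum_eq_zero fun t ht' => ?_
      rw [if_neg (not_lt.2 (h.trans (mem_Ico.1 ht').1)), zero_mul]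
    have h2 : ∑ t ∈ range t₀, (if t < τ then (0 : ℝ) else 1) * (a (t + 1) - a t) =
        ∑ t ∈ Ico τ t₀, (a (t + 1) - a t) := by
      rw [range_eq_Ico, ← sum_subset (Ico_subset_Ico_left (Nat.zero_le τ))]
      · refine sum_congr rfl fun t ht' => ?_
        rw [if_neg (not_lt.2 (mem_Ico.1 ht').1), one_mul]
      · intro t ht1 ht2
        have : t < τ := by
          by_contra h3
          exact ht2 (mem_Ico.2 ⟨not_lt.1 h3, (mem_Ico.1 ht1).2⟩)
        rw [if_pos this, zero_mul]
    rw [h1, h2, sum_Ico_sub _ h]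
    ring

/-- total one-step change of `F` at `A` -/
def drift (F : Finset (Fin n) → ℝ) (A : Finset (Fin n)) : ℝ :=
  ∑ v ∈ Aᶜ, (F (insert v A) - F A)

/-- the stopping property of an algorithm -/
def IsStopping (alg : Perm (Fin n) → ℕ) : Prop :=
  ∀ σ τ : Perm (Fin n), (∀ i : Fin n, (i : ℕ) < alg σ → σ i = τ i) → alg τ = alg σ

lemma stopping_swap {alg : Perm (Fin n) → ℕ} (h : IsStopping alg) {t : ℕ} (ht : t < n)
    (σ : Perm (Fin n)) (j : Fin n) (hj : t ≤ j) :
    (t < alg (σ * swap ⟨t, ht⟩ j)) ↔ (t < alg σ) := by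
  have key : ∀ σ : Perm (Fin n), alg σ ≤ t → alg (σ * swap ⟨t, ht⟩ j) = alg σ := by
    intro σ hσ
    refine h σ _ fun i hi => ?_
    rw [Perm.mul_apply, swap_apply_of_ne_of_ne]
    · intro h1
      rw [h1] at hi
      simp at hi
      omega
    · intro h1
      rw [h1] at hi
      omega
  constructor
  · intro h1
    by_contra h2
    rw [key σ (not_lt.1 h2)] at h1
    exact h2 h1
  · intro h1
    by_contra h2
    have h3 := key _ (not_lt.1 h2)
    rw [mul_assoc, swap_mul_self, mul_one] at h3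
    omega

theorem stopping_le {alg : Perm (Fin n) → ℕ} (h : IsStopping alg) (hle : ∀ σ, alg σ ≤ n)
    (F : Finset (Fin n) → ℝ) {t₀ : ℕ} (ht₀ : t₀ ≤ n) :
    ∑ σ, F (act σ (alg σ)) ≤ ∑ σ, F (act σ t₀)
      + ∑ t ∈ Ico t₀ n, (1 / ((n : ℝ) - t)) * ∑ σ, max (drift F (act σ t)) 0
      + ∑ t ∈ range t₀, (1 / ((n : ℝ) - t)) * ∑ σ, max (-(drift F (act σ t))) 0 := by
  have h1 : ∑ σ, F (act σ (alg σ)) = ∑ σ, F (act σ t₀)
      + ∑ t ∈ Ico t₀ n, ∑ σ, (if t < alg σ then (1 : ℝ) else 0) * (F (act σ (t + 1)) - F (act σ t))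
      - ∑ t ∈ range t₀, ∑ σ, (if t < alg σ then (0 : ℝ) else 1) * (F (act σ (t + 1)) - F (act σ t)) := by
    rw [sum_comm (s := Ico t₀ n), sum_comm (s := range t₀), ← sum_add_distrib, ← sum_sub_distrib]
    exact sum_congr rfl fun σ _ => telescope (fun t => F (act σ t)) (hle σ) ht₀
  rw [h1]
  have h2 : ∀ t ∈ Ico t₀ n,
      ∑ σ, (if t < alg σ then (1 : ℝ) else 0) * (F (act σ (t + 1)) - F (act σ t)) ≤
      (1 / ((n : ℝ) - t)) * ∑ σ, max (drift F (act σ t)) 0 := by
    intro t ht
    have htn : t < n := (mem_Ico.1 ht).2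
    have hpos : (0 : ℝ) < (n : ℝ) - t := by
      have : (t : ℝ) < n := by exact_mod_cast htn
      linarith
    have h3 := swap_avg htn (fun σ => if t < alg σ then (1 : ℝ) else 0) (by
      intro σ j hj
      simp only [stopping_swap h htn σ j hj]) F
    have h4 : ∑ σ, (if t < alg σ then (1 : ℝ) else 0) * (F (act σ (t + 1)) - F (act σ t)) =
        (1 / ((n : ℝ) - t)) * ∑ σ, (if t < alg σ then (1 : ℝ) else 0) * drift F (act σ t) := by
      unfold drift
      rw [← h3]
      field_simp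
    rw [h4]
    refine mul_le_mul_of_nonneg_left (sum_le_sum fun σ _ => ?_) (by positivity)
    split_ifs
    · rw [one_mul]; exact le_max_left _ _
    · rw [zero_mul]; exact le_max_right _ _
  have h5 : ∀ t ∈ range t₀,
      -(∑ σ, (if t < alg σ then (0 : ℝ) else 1) * (F (act σ (t + 1)) - F (act σ t))) ≤
      (1 / ((n : ℝ) - t)) * ∑ σ, max (-(drift F (act σ t))) 0 := by
    intro t ht
    have htn : t < n := lt_of_lt_of_le (mem_range.1 ht) ht₀
    have hpos : (0 : ℝ) < (n : ℝ) - t := by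
      have : (t : ℝ) < n := by exact_mod_cast htn
      linarith
    have h3 := swap_avg htn (fun σ => if t < alg σ then (0 : ℝ) else 1) (by
      intro σ j hj
      simp only [stopping_swap h htn σ j hj]) F
    have h4 : ∑ σ, (if t < alg σ then (0 : ℝ) else 1) * (F (act σ (t + 1)) - F (act σ t)) =
        (1 / ((n : ℝ) - t)) * ∑ σ, (if t < alg σ then (0 : ℝ) else 1) * drift F (act σ t) := by
      unfold drift
      rw [← h3]
      field_simp
    rw [h4, ← mul_neg, ← sum_neg_distrib]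
    refine mul_le_mul_of_nonneg_left (sum_le_sum fun σ _ => ?_) (by positivity)
    split_ifs
    · rw [zero_mul, neg_zero]; exact le_max_right _ _
    · rw [one_mul]; exact le_max_left _ _
  have h6 := sum_le_sum h2
  have h7 := sum_le_sum h5
  rw [sum_neg_distrib] at h7
  linarith

end Pool.Agent.X178.AE
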