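import Mathlib
import Pool.Agent.X178.AE.Perm

/-! Average over orderings versus product measure. -/

namespace Pool.Agent.X178.AE

open Finset Equiv

variable {n : ℕ}

/-- expectation under the product measure with density `p` -/
noncomputable def Ex (p : ℝ) (f : Finset (Fin n) → ℝ) : ℝ :=
  ∑ A : Finset (Fin n), p ^ A.card * (1 - p) ^ (n - A.card) * f A

lemma exists_perm_act {t : ℕ} (A : Finset (Fin n)) (hA : A.card = t) :
    ∃ ρ : Perm (Fin n), act ρ t = A := by
  have ht : t ≤ n := by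
    rw [← hA]
    simpa using A.card_le_univ
  have hc : Fintype.card {i : Fin n // (i : ℕ) < t} = Fintype.card {v : Fin n // v ∈ A} := by
    rw [Fintype.card_subtype, Fin.card_filter_val_lt, min_eq_right ht]
    simp [hA]
  let e := Fintype.equivOfCardEq hc
  refine ⟨e.extendSubtype, ?_⟩
  ext v
  rw [mem_act]
  constructor
  · intro h
    have := e.extendSubtype_mem _ h
    simpa using this
  · intro h
    by_contra h2
    have := e.extendSubtype_not_mem _ h2
    simp at this
    exact this h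

lemma map_act (σ ρ : Perm (Fin n)) (t : ℕ) :
    (act ρ t).map σ.toEmbedding = act (σ * ρ) t := by
  rw [act_eq_map, act_eq_map, map_map]
  congr 1

lemma sum_map_eq (f : Finset (Fin n) → ℝ) (A : Finset (Fin n)) :
    ∑ σ : Perm (Fin n), f (A.map σ.toEmbedding) = ∑ σ : Perm (Fin n), f (act σ A.card) := by
  obtain ⟨ρ, hρ⟩ := exists_perm_act A rfl
  rw [← Equiv.sum_comp (Equiv.mulRight ρ) (fun σ => f (act σ A.card))]
  refine sum_congr rfl fun σ _ => ?_
  rw [Equiv.coe_mulRight, ← map_act, hρ]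

lemma Ex_map (p : ℝ) (f : Finset (Fin n) → ℝ) (σ : Perm (Fin n)) :
    Ex p (fun A => f (A.map σ.toEmbedding)) = Ex p f := by
  unfold Ex
  rw [← Equiv.sum_comp (Equiv.finsetCongr σ) (fun A => p ^ A.card * (1 - p) ^ (n - A.card) * f A)]
  refine sum_congr rfl fun A _ => ?_
  simp [Equiv.finsetCongr_apply]

theorem Ex_eq (p : ℝ) (f : Finset (Fin n) → ℝ) :
    (n.factorial : ℝ) * Ex p f = ∑ t ∈ range (n + 1), (n.choose t : ℝ) *
      (p ^ t * (1 - p) ^ (n - t) * ∑ σ : Perm (Fin n), f (act σ t)) := by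
  have h1 : (n.factorial : ℝ) * Ex p f =
      ∑ σ : Perm (Fin n), Ex p (fun A => f (A.map σ.toEmbedding)) := by
    simp only [Ex_map]
    rw [sum_const, nsmul_eq_mul, card_univ, Fintype.card_perm, Fintype.card_fin]
  rw [h1]
  unfold Ex
  rw [sum_comm]
  simp only [← mul_sum, sum_map_eq]
  have h2 := Finset.sum_powerset_apply_card
    (fun t => p ^ t * (1 - p) ^ (n - t) * ∑ σ : Perm (Fin n), f (act σ t))
    (x := (univ : Finset (Fin n)))
  rw [powerset_univ, card_univ, Fintype.card_fin] at h2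
  rw [h2]
  simp [nsmul_eq_mul]

/-- number of orderings with `u` among the first `t` -/
lemma count_one (u : Fin n) {t : ℕ} (ht : t ≤ n) :
    (n : ℝ) * ∑ σ : Perm (Fin n), (if u ∈ act σ t then (1 : ℝ) else 0) = n.factorial * t := by
  have h1 : ∀ w : Fin n, ∑ σ : Perm (Fin n), (if u ∈ act σ t then (1 : ℝ) else 0) =
      ∑ σ : Perm (Fin n), (if w ∈ act σ t then (1 : ℝ) else 0) := by
    intro w
    rw [← Equiv.sum_comp (Equiv.mulLeft (swap u w))]
    refine sum_congr rfl fun σ _ => ?_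
    have : (swap u w * σ).symm u = σ.symm w := by
      rw [Equiv.symm_apply_eq]
      simp [Perm.mul_apply]
    simp only [Equiv.coe_mulLeft, mem_act, this]
  calc (n : ℝ) * ∑ σ : Perm (Fin n), (if u ∈ act σ t then (1 : ℝ) else 0)
      = ∑ w : Fin n, ∑ σ : Perm (Fin n), (if u ∈ act σ t then (1 : ℝ) else 0) := by
        rw [sum_const, nsmul_eq_mul, card_univ, Fintype.card_fin]
    _ = ∑ w : Fin n, ∑ σ : Perm (Fin n), (if w ∈ act σ t then (1 : ℝ) else 0) :=
        sum_congr rfl fun w _ => h1 w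
    _ = ∑ σ : Perm (Fin n), ∑ w : Fin n, (if w ∈ act σ t then (1 : ℝ) else 0) := sum_comm
    _ = ∑ σ : Perm (Fin n), (t : ℝ) := by
        refine sum_congr rfl fun σ _ => ?_
        rw [sum_ite_mem, univ_inter, sum_const, card_act σ ht]
        simp
    _ = n.factorial * t := by
        rw [sum_const, nsmul_eq_mul, card_univ, Fintype.card_perm, Fintype.card_fin]

lemma count_two (u w : Fin n) (huw : u ≠ w) {t : ℕ} (ht : t ≤ n) :
    ((n : ℝ) - 1) * (n * ∑ σ : Perm (Fin n), (if u ∈ act σ t ∧ w ∉ act σ t then (1 : ℝ) else 0))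
      = n.factorial * t * ((n : ℝ) - t) := by
  have h1 : ∀ x : Fin n, x ≠ u → ∑ σ : Perm (Fin n), (if u ∈ act σ t ∧ w ∉ act σ t then (1 : ℝ) else 0) =
      ∑ σ : Perm (Fin n), (if u ∈ act σ t ∧ x ∉ act σ t then (1 : ℝ) else 0) := by
    intro x hx
    rw [← Equiv.sum_comp (Equiv.mulLeft (swap w x))]
    refine sum_congr rfl fun σ _ => ?_
    have h2 : (swap w x * σ).symm w = σ.symm x := by
      rw [Equiv.symm_apply_eq]
      simp [Perm.mul_apply]
    have h3 : (swap w x * σ).symm u = σ.symm u := by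
      rw [Equiv.symm_apply_eq]
      simp [Perm.mul_apply, swap_apply_of_ne_of_ne huw hx.symm]
    simp only [Equiv.coe_mulLeft, mem_act, h2, h3]
  have hcard : (((univ : Finset (Fin n)).erase u).card : ℝ) = (n : ℝ) - 1 := by
    rw [card_erase_of_mem (mem_univ u), card_univ, Fintype.card_fin]
    have : 1 ≤ n := Nat.one_le_iff_ne_zero.2 (by rintro rfl; exact u.elim0)
    rw [Nat.cast_sub this]
    simp
  have h4 : ((n : ℝ) - 1) * ∑ σ : Perm (Fin n), (if u ∈ act σ t ∧ w ∉ act σ t then (1 : ℝ) else 0) =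
      ∑ σ : Perm (Fin n), (if u ∈ act σ t then (1 : ℝ) else 0) * ((n : ℝ) - t) := by
    calc ((n : ℝ) - 1) * ∑ σ : Perm (Fin n), (if u ∈ act σ t ∧ w ∉ act σ t then (1 : ℝ) else 0)
        = ∑ x ∈ (univ : Finset (Fin n)).erase u,
            ∑ σ : Perm (Fin n), (if u ∈ act σ t ∧ w ∉ act σ t then (1 : ℝ) else 0) := by
          rw [sum_const, nsmul_eq_mul, hcard]
      _ = ∑ x ∈ (univ : Finset (Fin n)).erase u,
            ∑ σ : Perm (Fin n), (if u ∈ act σ t ∧ x ∉ act σ t then (1 : ℝ) else 0) :=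
          sum_congr rfl fun x hx => h1 x (ne_of_mem_erase hx)
      _ = ∑ σ : Perm (Fin n), ∑ x ∈ (univ : Finset (Fin n)).erase u,
            (if u ∈ act σ t ∧ x ∉ act σ t then (1 : ℝ) else 0) := sum_comm
      _ = _ := by
          refine sum_congr rfl fun σ _ => ?_
          by_cases hu : u ∈ act σ t
          · simp only [hu, true_and, if_true, one_mul]
            rw [sum_erase]
            · have h5 : ∑ x : Fin n, (if x ∉ act σ t then (1 : ℝ) else 0) = ((act σ t)ᶜ.card : ℝ) := by
                rw [← sum_filter, sum_const, nsmul_eq_mul, mul_one]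
                congr 2
                ext x
                simp
              rw [h5, card_compl, card_act σ ht, Fintype.card_fin, Nat.cast_sub ht]
            · simp [hu]
          · simp [hu]
  rw [← sum_mul] at h4
  have h5 := count_one u ht
  calc ((n : ℝ) - 1) * (n * ∑ σ : Perm (Fin n), (if u ∈ act σ t ∧ w ∉ act σ t then (1 : ℝ) else 0))
      = n * (((n : ℝ) - 1) * ∑ σ : Perm (Fin n), (if u ∈ act σ t ∧ w ∉ act σ t then (1 : ℝ) else 0)) := by ring
    _ = n * ((∑ σ : Perm (Fin n), (if u ∈ act σ t then (1 : ℝ) else 0)) * ((n : ℝ) - t)) := by rw [h4]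
    _ = (n * ∑ σ : Perm (Fin n), (if u ∈ act σ t then (1 : ℝ) else 0)) * ((n : ℝ) - t) := by ring
    _ = _ := by rw [h5]

end Pool.Agent.X178.AE
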