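import Mathlib
import Pool.Agent.X178.AE.Avg

/-! Product measures: splitting and product formulas. -/

namespace Pool.Agent.X178.AE

open Finset

section general

variable {ι : Type*} [DecidableEq ι]

lemma sum_prod_ite (L : Finset ι) (a b : ι → ℝ) :
    ∑ C ∈ L.powerset, ∏ v ∈ L, (if v ∈ C then a v else b v) = ∏ v ∈ L, (a v + b v) := by
  rw [prod_add]
  refine sum_congr rfl fun C hC => ?_
  rw [mem_powerset] at hC
  rw [prod_ite]
  congr 1
  · refine prod_congr ?_ fun _ _ => rfl
    ext v
    simp only [mem_filter]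
    exact ⟨fun h => h.2, fun h => ⟨hC h, h⟩⟩
  · refine prod_congr ?_ fun _ _ => rfl
    ext v
    simp [mem_sdiff]

/-- product weight of the subset `C` of `L` -/
noncomputable def pw (p : ℝ) (L C : Finset ι) : ℝ := ∏ v ∈ L, (if v ∈ C then p else 1 - p)

lemma pw_nonneg {p : ℝ} (h0 : 0 ≤ p) (h1 : p ≤ 1) (L C : Finset ι) : 0 ≤ pw p L C := by
  refine prod_nonneg fun v _ => ?_
  split_ifs <;> linarith

lemma sum_pw (p : ℝ) (L : Finset ι) : ∑ C ∈ L.powerset, pw p L C = 1 := by
  unfold pw
  rw [sum_prod_ite]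
  simp

lemma sum_pw_prod (p : ℝ) (L : Finset ι) (a b : ι → ℝ) :
    ∑ C ∈ L.powerset, pw p L C * ∏ v ∈ L, (if v ∈ C then a v else b v) =
      ∏ v ∈ L, (p * a v + (1 - p) * b v) := by
  rw [← sum_prod_ite]
  refine sum_congr rfl fun C _ => ?_
  unfold pw
  rw [← prod_mul_distrib]
  refine prod_congr rfl fun v _ => ?_
  split_ifs <;> rfl

end general

variable {n : ℕ}

lemma pow_eq_pw (p : ℝ) (A : Finset (Fin n)) :
    p ^ A.card * (1 - p) ^ (n - A.card) = pw p univ A := by
  unfold pw
  rw [prod_ite, prod_const, prod_const]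
  congr 2
  · congr 1
    ext v
    simp
  · have h := card_compl A
    rw [Fintype.card_fin] at h
    rw [← h]
    congr 1
    ext v
    simp

theorem Ex_split (p : ℝ) (f : Finset (Fin n) → ℝ) (L : Finset (Fin n)) :
    Ex p f = ∑ B ∈ (Lᶜ).powerset, pw p Lᶜ B * ∑ C ∈ L.powerset, pw p L C * f (B ∪ C) := by
  unfold Ex
  simp only [pow_eq_pw, mul_sum]
  rw [← sum_product']
  refine sum_nbij' (fun A => (A \ L, A ∩ L)) (fun x => x.1 ∪ x.2) ?_ ?_ ?_ ?_ ?_
  · intro A _
    simp only [mem_product, mem_powerset]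
    constructor
    · intro v hv
      simp only [mem_sdiff] at hv
      simp [hv.2]
    · exact inter_subset_right
  · intro x _
    exact mem_univ _
  · intro A _
    exact sdiff_union_inter A L
  · rintro ⟨B, C⟩ hx
    simp only [mem_product, mem_powerset] at hx
    obtain ⟨hB, hC⟩ := hx
    ext v
    · simp only [mem_sdiff, mem_union]
      constructor
      · rintro ⟨h | h, h2⟩
        · exact h
        · exact absurd (hC h) h2
      · intro h
        exact ⟨Or.inl h, by simpa using hB h⟩
    · simp only [mem_inter, mem_union]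
      constructor
      · rintro ⟨h | h, h2⟩
        · exact absurd h2 (by simpa using hB h)
        · exact h
      · intro h
        exact ⟨Or.inr h, hC h⟩
  · intro A _
    simp only
    rw [sdiff_union_inter, ← mul_assoc]
    congr 1
    unfold pw
    rw [← prod_compl_mul_prod L]
    congr 1
    · refine prod_congr rfl fun v hv => ?_
      have hv' : v ∉ L := by simpa using hv
      simp [hv']
    · refine prod_congr rfl fun v hv => ?_
      simp [hv]

lemma Ex_mono {p : ℝ} (h0 : 0 ≤ p) (h1 : p ≤ 1) {f g : Finset (Fin n) → ℝ} (h : ∀ A, f A ≤ g A) :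
    Ex p f ≤ Ex p g := by
  unfold Ex
  refine sum_le_sum fun A _ => ?_
  refine mul_le_mul_of_nonneg_left (h A) ?_
  have : 0 ≤ 1 - p := by linarith
  positivity

lemma Ex_nonneg {p : ℝ} (h0 : 0 ≤ p) (h1 : p ≤ 1) {f : Finset (Fin n) → ℝ} (h : ∀ A, 0 ≤ f A) :
    0 ≤ Ex p f := by
  unfold Ex
  refine sum_nonneg fun A _ => ?_
  have : 0 ≤ 1 - p := by linarith
  exact mul_nonneg (by positivity) (h A)

end Pool.Agent.X178.AE
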