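import Mathlib
import Pool.Agent.X178.AE.Prod
import Pool.Agent.X178.AE.Inner

/-! One parity class: bounds of the expected positive part in terms of the number of leaves with an
inactive centre. -/

namespace Pool.Agent.X178.AE

open Finset

variable {n : ℕ}

/-- leaves whose centre is inactive -/
def lv (L : Finset (Fin n)) (c : Fin n → Fin n) (A : Finset (Fin n)) : Finset (Fin n) :=
  L.filter (fun v => c v ∉ A)

/-- signed sum over the leaves whose centre is inactive -/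
def sg (L : Finset (Fin n)) (c : Fin n → Fin n) (e : ℤ) (A : Finset (Fin n)) : ℤ :=
  ∑ v ∈ lv L c A, (if v ∈ A then e else -e)

/-- its positive part -/
noncomputable def pos (L : Finset (Fin n)) (c : Fin n → Fin n) (e : ℤ) (A : Finset (Fin n)) : ℝ :=
  max (sg L c e A : ℝ) 0

lemma pos_nonneg (L : Finset (Fin n)) (c : Fin n → Fin n) (e : ℤ) (A : Finset (Fin n)) :
    0 ≤ pos L c e A := le_max_right _ _

lemma lv_union (L : Finset (Fin n)) (c : Fin n → Fin n) (hc : ∀ v ∈ L, c v ∉ L)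
    (B C : Finset (Fin n)) (hC : C ⊆ L) : lv L c (B ∪ C) = lv L c B := by
  ext v
  simp only [lv, mem_filter, mem_union, not_or]
  constructor
  · rintro ⟨h1, h2, _⟩
    exact ⟨h1, h2⟩
  · rintro ⟨h1, h2⟩
    exact ⟨h1, h2, fun h => hc v h1 (hC h)⟩

lemma sg_union (L : Finset (Fin n)) (c : Fin n → Fin n) (hc : ∀ v ∈ L, c v ∉ L) (e : ℤ)
    (B C : Finset (Fin n)) (hB : B ⊆ Lᶜ) (hC : C ⊆ L) :
    sg L c e (B ∪ C) = ∑ v ∈ lv L c B, (if v ∈ C then e else -e) := by
  unfold sg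
  rw [lv_union L c hc B C hC]
  refine sum_congr rfl fun v hv => ?_
  have hvL : v ∈ L := (mem_filter.1 hv).1
  have hvB : v ∉ B := fun h => by
    have := hB h
    simp at this
    exact this hvL
  simp [hvB]

lemma hasExp_inner (L E : Finset (Fin n)) (hE : E ⊆ L) (p δ : ℝ) (e : ℤ)
    (h : (e = 1 ∧ p = (1 - δ) / 2) ∨ (e = -1 ∧ p = (1 + δ) / 2)) :
    HasExp L.powerset (pw p L) (fun C => ∑ v ∈ E, (if v ∈ C then e else -e)) E.card δ := by
  intro θ
  have h1 : ∀ C : Finset (Fin n), Real.exp (θ * ((∑ v ∈ E, (if v ∈ C then e else -e) : ℤ) : ℝ)) =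
      ∏ v ∈ L, (if v ∈ C then (if v ∈ E then Real.exp (θ * e) else 1)
        else (if v ∈ E then Real.exp (-(θ * e)) else 1)) := by
    intro C
    push_cast
    rw [mul_sum, Real.exp_sum, ← prod_subset hE]
    · refine prod_congr rfl fun v hv => ?_
      simp only [hv, if_true]
      split_ifs
      · rfl
      · congr 1
        ring
    · intro v _ hv
      simp [hv]
  simp only [h1]
  rw [sum_pw_prod]
  have h2 : ∀ v ∈ L, (p * (if v ∈ E then Real.exp (θ * e) else 1) +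
      (1 - p) * (if v ∈ E then Real.exp (-(θ * e)) else 1)) =
      if v ∈ E then ((1 - δ) / 2 * Real.exp θ + (1 + δ) / 2 * Real.exp (-θ)) else 1 := by
    intro v _
    split_ifs
    · rcases h with ⟨rfl, rfl⟩ | ⟨rfl, rfl⟩
      · push_cast
        rw [mul_one]
        ring
      · push_cast
        rw [mul_neg, mul_one, neg_neg]
        ring
    · ring
  rw [prod_congr rfl h2, prod_ite_mem, prod_const, inter_eq_right.2 hE]

section

variable (L : Finset (Fin n)) (c : Fin n → Fin n) (hc : ∀ v ∈ L, c v ∉ L) (e : ℤ) (p δ : ℝ)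
  (h : (e = 1 ∧ p = (1 - δ) / 2) ∨ (e = -1 ∧ p = (1 + δ) / 2)) (h0 : 0 ≤ δ) (h1 : δ ≤ 1)

include hc

lemma Ex_pos_eq : Ex p (pos L c e) = ∑ B ∈ (Lᶜ).powerset, pw p Lᶜ B *
    ∑ C ∈ L.powerset, pw p L C * max (((∑ v ∈ lv L c B, (if v ∈ C then e else -e) : ℤ)) : ℝ) 0 := by
  rw [Ex_split p _ L]
  refine sum_congr rfl fun B hB => ?_
  congr 1
  refine sum_congr rfl fun C hC => ?_
  unfold pos
  rw [sg_union L c hc e B C (mem_powerset.1 hB) (mem_powerset.1 hC)]

include h h0 h1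

lemma p_mem : 0 ≤ p ∧ p ≤ 1 := by
  rcases h with ⟨_, rfl⟩ | ⟨_, rfl⟩ <;> constructor <;> linarith

lemma Ex_pos_le_of (K : ℕ → ℝ)
    (hK : ∀ B ∈ (Lᶜ).powerset, ∑ C ∈ L.powerset, pw p L C *
      max (((∑ v ∈ lv L c B, (if v ∈ C then e else -e) : ℤ)) : ℝ) 0 ≤ K (lv L c B).card) :
    Ex p (pos L c e) ≤ ∑ B ∈ (Lᶜ).powerset, pw p Lᶜ B * K (lv L c B).card := by
  rw [Ex_pos_eq L c hc]
  obtain ⟨hp0, hp1⟩ := p_mem L c hc e p δ h h0 h1
  exact sum_le_sum fun B hB => mul_le_mul_of_nonneg_left (hK B hB) (pw_nonneg hp0 hp1 _ _)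

theorem Ex_dyadic {J : ℕ} (hJ : 1 ≤ 2 ^ J * δ) (hδ : 0 < δ) :
    Ex p (pos L c e) ≤ ∑ B ∈ (Lᶜ).powerset, pw p Lᶜ B *
      (5 * ∑ j ∈ range (J + 1), term j δ (lv L c B).card) := by
  obtain ⟨hp0, hp1⟩ := p_mem L c hc e p δ h h0 h1
  refine Ex_pos_le_of L c hc e p δ h h0 h1 (fun M => 5 * ∑ j ∈ range (J + 1), term j δ M) fun B _ => ?_
  refine bound_dyadic (fun C _ => pw_nonneg hp0 hp1 L C)
    (hasExp_inner L _ (filter_subset _ _) p δ e h) hδ h1 ?_ hJ
  intro hM C _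
  rw [card_eq_zero] at hM
  simp [hM]

theorem Ex_trivial : Ex p (pos L c e) ≤ 2 * Real.sqrt n := by
  obtain ⟨hp0, hp1⟩ := p_mem L c hc e p δ h h0 h1
  refine (Ex_pos_le_of L c hc e p δ h h0 h1 (fun _ => 2 * Real.sqrt n) fun B _ => ?_).trans ?_
  · refine (bound_trivial (fun C _ => pw_nonneg hp0 hp1 L C)
      (hasExp_inner L _ (filter_subset _ _) p δ e h) h0 h1 ?_).trans ?_
    · intro hM C _
      rw [card_eq_zero] at hM
      simp [hM]
    · have : ((lv L c B).card : ℝ) ≤ n := by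
        have h3 : (lv L c B).card ≤ Fintype.card (Fin n) := card_le_univ _
        rw [Fintype.card_fin] at h3
        exact_mod_cast h3
      exact mul_le_mul_of_nonneg_left (Real.sqrt_le_sqrt this) (by norm_num)
  · rw [← sum_mul, sum_pw, one_mul]

theorem Ex_far (hδ0 : 1 / 2 ≤ δ) (hδ1 : δ < 1) : Ex p (pos L c e) ≤ 1 - δ := by
  obtain ⟨hp0, hp1⟩ := p_mem L c hc e p δ h h0 h1
  refine (Ex_pos_le_of L c hc e p δ h h0 h1 (fun _ => 1 - δ) fun B _ => ?_).trans ?_
  · refine bound_far (fun C _ => pw_nonneg hp0 hp1 L C)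
      (hasExp_inner L _ (filter_subset _ _) p δ e h) hδ0 hδ1 ?_
    intro hM C _
    rw [card_eq_zero] at hM
    have hM' : lv L c B = ∅ := hM
    simp [hM']
  · rw [← sum_mul, sum_pw, one_mul]

end

/-! ### The Laplace transform of the number of leaves with an inactive centre -/

/-- number of leaves of the centre `u` -/
def kk (L : Finset (Fin n)) (c : Fin n → Fin n) (u : Fin n) : ℕ := (L.filter (fun v => c v = u)).card

lemma card_lv (L : Finset (Fin n)) (c : Fin n → Fin n) (hc : ∀ v ∈ L, c v ∉ L) (B : Finset (Fin n)) :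
    (lv L c B).card = ∑ u ∈ Lᶜ, (if u ∈ B then 0 else kk L c u) := by
  rw [card_eq_sum_card_fiberwise (f := c) (s := lv L c B) (t := Lᶜ)]
  · refine sum_congr rfl fun u _ => ?_
    split_ifs with hu
    · rw [card_eq_zero, filter_eq_empty_iff]
      intro v hv h2
      exact (mem_filter.1 hv).2 (h2 ▸ hu)
    · unfold kk lv
      rw [filter_filter]
      congr 1
      ext v
      simp only [mem_filter]
      constructor
      · rintro ⟨h1, _, h3⟩
        exact ⟨h1, h3⟩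
      · rintro ⟨h1, h3⟩
        exact ⟨h1, h3 ▸ hu, h3⟩
  · intro v hv
    have hv' : v ∈ lv L c B := by exact_mod_cast hv
    have := hc v (mem_filter.1 hv').1
    simpa using this

lemma laplace (L : Finset (Fin n)) (c : Fin n → Fin n) (hc : ∀ v ∈ L, c v ∉ L) (p lam : ℝ) :
    ∑ B ∈ (Lᶜ).powerset, pw p Lᶜ B * Real.exp (-(lam * (lv L c B).card)) =
      ∏ u ∈ Lᶜ, (1 - (1 - p) * (1 - Real.exp (-(lam * kk L c u)))) := by
  have h1 : ∀ B : Finset (Fin n), Real.exp (-(lam * (lv L c B).card)) =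
      ∏ u ∈ Lᶜ, (if u ∈ B then (1 : ℝ) else Real.exp (-(lam * kk L c u))) := by
    intro B
    rw [card_lv L c hc]
    push_cast
    rw [mul_sum, ← sum_neg_distrib, Real.exp_sum]
    refine prod_congr rfl fun u _ => ?_
    split_ifs <;> simp
  simp only [h1]
  rw [sum_pw_prod]
  refine prod_congr rfl fun u _ => ?_
  ring

lemma laplace_deriv (L : Finset (Fin n)) (c : Fin n → Fin n) (hc : ∀ v ∈ L, c v ∉ L) (p lam : ℝ) :
    ∑ B ∈ (Lᶜ).powerset, pw p Lᶜ B * ((lv L c B).card * Real.exp (-(lam * (lv L c B).card))) =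
      ∑ u ∈ Lᶜ, (∏ u' ∈ (Lᶜ).erase u, (1 - (1 - p) * (1 - Real.exp (-(lam * kk L c u'))))) *
        ((1 - p) * (kk L c u * Real.exp (-(lam * kk L c u)))) := by
  have hd : ∀ k : ℝ, HasDerivAt (fun l : ℝ => Real.exp (-(l * k))) (-(k * Real.exp (-(lam * k)))) lam := by
    intro k
    have h2 : HasDerivAt (fun l : ℝ => -(l * k)) (-(1 * k)) lam := ((hasDerivAt_id lam).mul_const k).fun_neg
    refine h2.exp.congr_deriv ?_
    ring
  have h1 : HasDerivAt (fun l : ℝ => ∑ B ∈ (Lᶜ).powerset, pw p Lᶜ B * Real.exp (-(l * (lv L c B).card)))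
      (∑ B ∈ (Lᶜ).powerset, pw p Lᶜ B * (-((lv L c B).card * Real.exp (-(lam * (lv L c B).card))))) lam :=
    HasDerivAt.fun_sum fun B _ => (hd _).const_mul _
  have h2 : HasDerivAt (fun l : ℝ => ∏ u ∈ Lᶜ, (1 - (1 - p) * (1 - Real.exp (-(l * kk L c u)))))
      (∑ u ∈ Lᶜ, (∏ u' ∈ (Lᶜ).erase u, (1 - (1 - p) * (1 - Real.exp (-(lam * kk L c u'))))) •
        (-((1 - p) * (-(-(kk L c u * Real.exp (-(lam * kk L c u)))))))) lam :=
    HasDerivAt.fun_finsetProd fun u _ => (((hd _).const_sub 1).const_mul (1 - p)).const_sub 1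
  simp only [laplace L c hc] at h1
  have h3 := h1.unique h2
  simp only [mul_neg, neg_neg, smul_eq_mul, sum_neg_distrib, neg_inj] at h3
  exact h3

end Pool.Agent.X178.AE
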