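import Mathlib
import Pool.Agent.X178.AE.Cls

/-! Integration of the dyadic bound. -/

namespace Pool.Agent.X178.AE

open Finset intervalIntegral

variable {n : ℕ}

/-- probability of exactly one success -/
lemma one_success {ι : Type*} [DecidableEq ι] (W : Finset ι) (x : ι → ℝ) (h0 : ∀ u, 0 ≤ x u)
    (h1 : ∀ u, x u ≤ 1) : ∑ u ∈ W, (∏ u' ∈ W.erase u, (1 - x u')) * x u ≤ 1 := by
  induction W using Finset.induction_on with
  | empty => simp
  | insert a s ha ih =>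
    rw [sum_insert ha, erase_insert ha]
    have h2 : ∀ u ∈ s, (∏ u' ∈ (insert a s).erase u, (1 - x u')) * x u =
        (1 - x a) * ((∏ u' ∈ s.erase u, (1 - x u')) * x u) := by
      intro u hu
      have hau : a ≠ u := fun h => ha (h ▸ hu)
      rw [erase_insert_of_ne hau, prod_insert (fun h => ha (mem_of_mem_erase h))]
      ring
    rw [sum_congr rfl h2, ← mul_sum]
    have h3 : ∏ u' ∈ s, (1 - x u') ≤ 1 := prod_le_one (fun u _ => sub_nonneg.2 (h1 u))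
      (fun u _ => by have := h0 u; linarith)
    have h4 := h0 a
    have h5 := sub_nonneg.2 (h1 a)
    have h6 := mul_le_mul_of_nonneg_right h3 h4
    have h7 := mul_le_mul_of_nonneg_left ih h5
    linarith

/-- density of active vertices -/
noncomputable def dens (ep x : ℝ) : ℝ := (1 - ep * x) / 2

/-- a factor of the Laplace transform -/
noncomputable def fac (ep : ℝ) (j k : ℕ) (x : ℝ) : ℝ :=
  1 - (1 - dens ep x) * (1 - Real.exp (-(4 ^ j * x ^ 2 / 4 * k)))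

/-- its derivative -/
noncomputable def fac' (ep : ℝ) (j k : ℕ) (x : ℝ) : ℝ :=
  -(ep / 2 * (1 - Real.exp (-(4 ^ j * x ^ 2 / 4 * k))) +
    (1 - dens ep x) * (4 ^ j * x / 2 * (k * Real.exp (-(4 ^ j * x ^ 2 / 4 * k)))))

lemma fac_deriv (ep : ℝ) (j k : ℕ) (x : ℝ) : HasDerivAt (fac ep j k) (fac' ep j k x) x := by
  have h1 : HasDerivAt (fun x : ℝ => -(4 ^ j * x ^ 2 / 4 * k)) (-(4 ^ j * x / 2 * k)) x := by
    have h2 := (((hasDerivAt_pow 2 x).const_mul ((4 : ℝ) ^ j)).div_const 4).mul_const (k : ℝ)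
    refine h2.fun_neg.congr_deriv ?_
    push_cast
    ring
  have h3 : HasDerivAt (fun x : ℝ => 1 - dens ep x) (ep / 2) x := by
    have h4 : HasDerivAt (fun x : ℝ => 1 - (1 - ep * x) / 2) (-(-(ep * 1) / 2)) x :=
      ((((hasDerivAt_id x).const_mul ep).const_sub 1).div_const 2).const_sub 1
    refine h4.congr_deriv ?_
    ring
  have h5 := (h3.fun_mul (h1.exp.const_sub 1)).const_sub 1
  refine h5.congr_deriv ?_
  unfold fac'
  ring

lemma fac'_cont (ep : ℝ) (j k : ℕ) : Continuous (fac' ep j k) := by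
  unfold fac' dens
  fun_prop

lemma fac_cont (ep : ℝ) (j k : ℕ) : Continuous (fac ep j k) := by
  unfold fac dens
  fun_prop

lemma exp_mem (j k : ℕ) (x : ℝ) : 0 ≤ 1 - Real.exp (-(4 ^ j * x ^ 2 / 4 * k)) ∧
    1 - Real.exp (-(4 ^ j * x ^ 2 / 4 * k)) ≤ 1 := by
  constructor
  · have : Real.exp (-(4 ^ j * x ^ 2 / 4 * k)) ≤ 1 := by
      apply Real.exp_le_one_iff.2
      have : 0 ≤ (4 : ℝ) ^ j * x ^ 2 / 4 * k := by positivity
      linarith
    linarith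
  · have := Real.exp_pos (-(4 ^ j * x ^ 2 / 4 * k))
    linarith

section

variable (L : Finset (Fin n)) (c : Fin n → Fin n)

/-- the Laplace transform along the path -/
noncomputable def Gam (ep : ℝ) (j : ℕ) (x : ℝ) : ℝ := ∏ u ∈ Lᶜ, fac ep j (kk L c u) x

/-- its derivative -/
noncomputable def Gam' (ep : ℝ) (j : ℕ) (x : ℝ) : ℝ :=
  ∑ u ∈ Lᶜ, (∏ u' ∈ (Lᶜ).erase u, fac ep j (kk L c u') x) * fac' ep j (kk L c u) x

lemma Gam_deriv (ep : ℝ) (j : ℕ) (x : ℝ) : HasDerivAt (Gam L c ep j) (Gam' L c ep j x) x := by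
  have h := HasDerivAt.fun_finsetProd (u := Lᶜ) (f := fun u => fac ep j (kk L c u))
    (f' := fun u => fac' ep j (kk L c u) x) (x := x) fun u _ => fac_deriv ep j (kk L c u) x
  exact h

lemma Gam'_cont (ep : ℝ) (j : ℕ) : Continuous (Gam' L c ep j) := by
  unfold Gam'
  refine continuous_finsetSum _ fun u _ => ?_
  exact (continuous_finsetProd _ fun u' _ => fac_cont _ _ _).mul (fac'_cont _ _ _)

/-- the averaged dyadic term -/
noncomputable def RR (ep : ℝ) (j : ℕ) (x : ℝ) : ℝ :=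
  ∑ B ∈ (Lᶜ).powerset, pw (dens ep x) Lᶜ B * term j x (lv L c B).card

lemma pw_cont (ep : ℝ) (B : Finset (Fin n)) : Continuous (fun x => pw (dens ep x) Lᶜ B) := by
  unfold pw dens
  refine continuous_finsetProd _ fun u _ => ?_
  split_ifs <;> fun_prop

lemma RR_cont (ep : ℝ) (j : ℕ) : Continuous (RR L c ep j) := by
  unfold RR
  refine continuous_finsetSum _ fun B _ => (pw_cont L ep B).mul ?_
  unfold term
  fun_prop

lemma fac_mem {ep x : ℝ} (hd : 0 ≤ 1 - dens ep x) (hd1 : 1 - dens ep x ≤ 1) (j k : ℕ) :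
    0 ≤ fac ep j k x ∧ fac ep j k x ≤ 1 := by
  obtain ⟨h1, h2⟩ := exp_mem j k x
  unfold fac
  constructor
  · have := mul_le_mul hd1 h2 h1 (by norm_num)
    linarith
  · have := mul_nonneg hd h1
    linarith

lemma Gam_mem {ep x : ℝ} (hd : 0 ≤ 1 - dens ep x) (hd1 : 1 - dens ep x ≤ 1) (j : ℕ) :
    0 ≤ Gam L c ep j x ∧ Gam L c ep j x ≤ 1 :=
  ⟨prod_nonneg fun _ _ => (fac_mem hd hd1 _ _).1,
    prod_le_one (fun _ _ => (fac_mem hd hd1 _ _).1) (fun _ _ => (fac_mem hd hd1 _ _).2)⟩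

lemma RR_eq (hc : ∀ v ∈ L, c v ∉ L) (ep : ℝ) (j : ℕ) (x : ℝ) :
    RR L c ep j x = 2 * (1 / 2) ^ j * (-(Gam' L c ep j x) - ep / 2 *
      ∑ u ∈ Lᶜ, (∏ u' ∈ (Lᶜ).erase u, fac ep j (kk L c u') x) *
        (1 - Real.exp (-(4 ^ j * x ^ 2 / 4 * kk L c u)))) := by
  have h1 : RR L c ep j x = (1 / 2) ^ j * (4 ^ j * x) *
      ∑ B ∈ (Lᶜ).powerset, pw (dens ep x) Lᶜ B *
        ((lv L c B).card * Real.exp (-(4 ^ j * x ^ 2 / 4 * (lv L c B).card))) := by
    unfold RR term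
    rw [mul_sum]
    refine sum_congr rfl fun B _ => ?_
    ring
  rw [h1, laplace_deriv L c hc]
  have h2 : Gam' L c ep j x = -(ep / 2 *
      ∑ u ∈ Lᶜ, (∏ u' ∈ (Lᶜ).erase u, fac ep j (kk L c u') x) *
        (1 - Real.exp (-(4 ^ j * x ^ 2 / 4 * kk L c u)))) - 4 ^ j * x / 2 *
      ∑ u ∈ Lᶜ, (∏ u' ∈ (Lᶜ).erase u, fac ep j (kk L c u') x) *
        ((1 - dens ep x) * (kk L c u * Real.exp (-(4 ^ j * x ^ 2 / 4 * kk L c u)))) := by
    unfold Gam' fac'
    rw [mul_sum, mul_sum, ← sum_neg_distrib, ← sum_sub_distrib]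
    refine sum_congr rfl fun u _ => ?_
    ring
  rw [h2]
  unfold fac
  ring

lemma RR_le_plus (hc : ∀ v ∈ L, c v ∉ L) (j : ℕ) {x : ℝ} (h0 : 0 ≤ x) (h1 : x ≤ 1) :
    RR L c 1 j x ≤ 2 * (1 / 2) ^ j * (-(Gam' L c 1 j x)) := by
  rw [RR_eq L c hc]
  refine mul_le_mul_of_nonneg_left ?_ (by positivity)
  have hd : 0 ≤ 1 - dens 1 x := by unfold dens; linarith
  have hd1 : 1 - dens 1 x ≤ 1 := by unfold dens; linarith
  have : 0 ≤ ∑ u ∈ Lᶜ, (∏ u' ∈ (Lᶜ).erase u, fac 1 j (kk L c u') x) *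
        (1 - Real.exp (-(4 ^ j * x ^ 2 / 4 * kk L c u))) :=
    sum_nonneg fun u _ => mul_nonneg (prod_nonneg fun _ _ => (fac_mem hd hd1 _ _).1) (exp_mem _ _ _).1
  linarith

lemma RR_le_minus (hc : ∀ v ∈ L, c v ∉ L) (j : ℕ) {x : ℝ} (h0 : 0 ≤ x) (h1 : x ≤ 1 / 2) :
    RR L c (-1) j x ≤ 2 * (1 / 2) ^ j * (-(Gam' L c (-1) j x) + 2) := by
  rw [RR_eq L c hc]
  refine mul_le_mul_of_nonneg_left ?_ (by positivity)
  have hq : 1 - dens (-1) x = (1 - x) / 2 := by unfold dens; ring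
  have hd : 0 ≤ 1 - dens (-1) x := by rw [hq]; linarith
  have hd1 : 1 - dens (-1) x ≤ 1 := by rw [hq]; linarith
  have h2 := one_success (Lᶜ) (fun u => (1 - dens (-1) x) * (1 - Real.exp (-(4 ^ j * x ^ 2 / 4 * kk L c u))))
    (fun u => mul_nonneg hd (exp_mem _ _ _).1)
    (fun u => by
      have := mul_le_mul hd1 (exp_mem j (kk L c u) x).2 (exp_mem j (kk L c u) x).1 (by norm_num)
      simpa using this)
  have h3 : ∑ u ∈ Lᶜ, (∏ u' ∈ (Lᶜ).erase u, (1 - (1 - dens (-1) x) *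
        (1 - Real.exp (-(4 ^ j * x ^ 2 / 4 * kk L c u'))))) *
        ((1 - dens (-1) x) * (1 - Real.exp (-(4 ^ j * x ^ 2 / 4 * kk L c u)))) =
      (1 - dens (-1) x) * ∑ u ∈ Lᶜ, (∏ u' ∈ (Lᶜ).erase u, fac (-1) j (kk L c u') x) *
        (1 - Real.exp (-(4 ^ j * x ^ 2 / 4 * kk L c u))) := by
    unfold fac
    rw [mul_sum]
    refine sum_congr rfl fun u _ => ?_
    ring
  rw [h3, hq] at h2
  have h4 : 0 ≤ ∑ u ∈ Lᶜ, (∏ u' ∈ (Lᶜ).erase u, fac (-1) j (kk L c u') x) *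
        (1 - Real.exp (-(4 ^ j * x ^ 2 / 4 * kk L c u))) :=
    sum_nonneg fun u _ => mul_nonneg (prod_nonneg fun _ _ => (fac_mem hd hd1 _ _).1) (exp_mem _ _ _).1
  nlinarith

lemma int_plus (hc : ∀ v ∈ L, c v ∉ L) (j : ℕ) {x0 x1 : ℝ} (h0 : 0 ≤ x0) (h01 : x0 ≤ x1)
    (h1 : x1 ≤ 1) : ∫ x in x0..x1, RR L c 1 j x ≤ 2 * (1 / 2) ^ j := by
  have h2 : ∫ x in x0..x1, RR L c 1 j x ≤ ∫ x in x0..x1, 2 * (1 / 2) ^ j * (-(Gam' L c 1 j x)) := by
    refine integral_mono_on h01 ((RR_cont L c 1 j).intervalIntegrable _ _)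
      (((Gam'_cont L c 1 j).neg.const_mul _).intervalIntegrable _ _) fun x hx => ?_
    exact RR_le_plus L c hc j (h0.trans hx.1) (hx.2.trans h1)
  refine h2.trans ?_
  rw [integral_const_mul, integral_neg, integral_eq_sub_of_hasDerivAt (fun x _ => Gam_deriv L c 1 j x)
    ((Gam'_cont L c 1 j).intervalIntegrable _ _)]
  have h3 := Gam_mem L c (ep := 1) (x := x0) (by unfold dens; linarith) (by unfold dens; linarith) j
  have h4 := Gam_mem L c (ep := 1) (x := x1) (by unfold dens; linarith) (by unfold dens; linarith) j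
  have : -(Gam L c 1 j x1 - Gam L c 1 j x0) ≤ 1 := by linarith [h3.2, h4.1]
  calc 2 * (1 / 2) ^ j * -(Gam L c 1 j x1 - Gam L c 1 j x0) ≤ 2 * (1 / 2) ^ j * 1 :=
        mul_le_mul_of_nonneg_left this (by positivity)
    _ = _ := mul_one _

lemma int_minus (hc : ∀ v ∈ L, c v ∉ L) (j : ℕ) {x0 x1 : ℝ} (h0 : 0 ≤ x0) (h01 : x0 ≤ x1)
    (h1 : x1 ≤ 1 / 2) : ∫ x in x0..x1, RR L c (-1) j x ≤ 4 * (1 / 2) ^ j := by
  have h2 : ∫ x in x0..x1, RR L c (-1) j x ≤
      ∫ x in x0..x1, 2 * (1 / 2) ^ j * (-(Gam' L c (-1) j x) + 2) := by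
    refine integral_mono_on h01 ((RR_cont L c (-1) j).intervalIntegrable _ _)
      ((((Gam'_cont L c (-1) j).neg.add continuous_const).const_mul _).intervalIntegrable _ _) fun x hx => ?_
    exact RR_le_minus L c hc j (h0.trans hx.1) (hx.2.trans h1)
  refine h2.trans ?_
  have hi : ∫ x in x0..x1, (-(Gam' L c (-1) j x) + 2) =
      -(Gam L c (-1) j x1 - Gam L c (-1) j x0) + (x1 - x0) * 2 := by
    have hd : ∀ x ∈ Set.uIcc x0 x1, HasDerivAt (fun x => -(Gam L c (-1) j x) + x * 2)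
        (-(Gam' L c (-1) j x) + 1 * 2) x := fun x _ =>
      (Gam_deriv L c (-1) j x).fun_neg.fun_add ((hasDerivAt_id x).mul_const 2)
    have hint := integral_eq_sub_of_hasDerivAt hd
      (((Gam'_cont L c (-1) j).neg.add continuous_const).intervalIntegrable _ _)
    rw [one_mul] at hint
    rw [hint]
    ring
  rw [integral_const_mul, hi]
  have h3 := Gam_mem L c (ep := -1) (x := x0) (by unfold dens; linarith) (by unfold dens; linarith) j
  have h4 := Gam_mem L c (ep := -1) (x := x1) (by unfold dens; linarith) (by unfold dens; linarith) j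
  have : -(Gam L c (-1) j x1 - Gam L c (-1) j x0) + (x1 - x0) * 2 ≤ 2 := by linarith [h3.2, h4.1]
  calc 2 * (1 / 2) ^ j * (-(Gam L c (-1) j x1 - Gam L c (-1) j x0) + (x1 - x0) * 2)
      ≤ 2 * (1 / 2) ^ j * 2 := mul_le_mul_of_nonneg_left this (by positivity)
    _ = _ := by ring

end

end Pool.Agent.X178.AE
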