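import Mathlib
import Pool.Agent.X178.AE.Deriv
import Pool.Agent.X178.AE.Beta

/-! Total expected drift of one parity class. -/

namespace Pool.Agent.X178.AE

open Finset intervalIntegral Equiv

variable {n : ℕ}

lemma Ex_cont (ep : ℝ) (f : Finset (Fin n) → ℝ) : Continuous (fun x => Ex (dens ep x) f) := by
  unfold Ex dens
  refine continuous_finsetSum _ fun A _ => ?_
  fun_prop

lemma sqrt_le_two_pow (n : ℕ) : (1 / 2 : ℝ) ^ n * (2 * Real.sqrt n) ≤ 2 := by
  have h1 : Real.sqrt n ≤ 2 ^ n := by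
    rw [Real.sqrt_le_left (by positivity)]
    have h2 : (n : ℝ) ≤ 2 ^ n := by
      have : n ≤ 2 ^ n := Nat.lt_two_pow_self.le
      exact_mod_cast this
    have h3 : (1 : ℝ) ≤ 2 ^ n := one_le_pow₀ (by norm_num)
    nlinarith
  have h2 : (1 / 2 : ℝ) ^ n * 2 ^ n = 1 := by
    rw [← mul_pow]; norm_num
  have h3 := mul_le_mul_of_nonneg_left h1 (show (0 : ℝ) ≤ (1 / 2 : ℝ) ^ n by positivity)
  nlinarith

section

variable (L : Finset (Fin n)) (c : Fin n → Fin n) (hc : ∀ v ∈ L, c v ∉ L)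

include hc

lemma int_Ex_le (e : ℤ) (ep : ℝ) (he : (e = 1 ∧ ep = 1) ∨ (e = -1 ∧ ep = -1)) (hn : 1 ≤ n)
    {x1 K : ℝ} (hx1 : 1 / 2 ≤ x1) (hx1' : x1 ≤ 1)
    (hK : ∀ (j : ℕ) (x0 : ℝ), 0 ≤ x0 → x0 ≤ x1 → ∫ x in x0..x1, RR L c ep j x ≤ K * (1 / 2) ^ j)
    (hK0 : 0 ≤ K) :
    ∫ x in (0 : ℝ)..x1, Ex (dens ep x) (pos L c e) ≤ 2 + 10 * K := by
  have hside : ∀ x : ℝ, (e = 1 ∧ dens ep x = (1 - x) / 2) ∨ (e = -1 ∧ dens ep x = (1 + x) / 2) := by
    intro x
    rcases he with ⟨h1, h2⟩ | ⟨h1, h2⟩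
    · left
      exact ⟨h1, by rw [h2]; unfold dens; ring⟩
    · right
      exact ⟨h1, by rw [h2]; unfold dens; ring⟩
  set x0 : ℝ := (1 / 2) ^ n with hx0
  have hx0pos : 0 < x0 := by positivity
  have hx0half : x0 ≤ 1 / 2 := by
    calc x0 ≤ (1 / 2 : ℝ) ^ 1 := pow_le_pow_of_le_one (by norm_num) (by norm_num) hn
      _ = 1 / 2 := pow_one _
  have hx01 : x0 ≤ x1 := hx0half.trans hx1
  have hint : ∀ a b : ℝ, IntervalIntegrable (fun x => Ex (dens ep x) (pos L c e)) MeasureTheory.volume a b :=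
    fun a b => (Ex_cont ep _).intervalIntegrable a b
  rw [← integral_add_adjacent_intervals (hint 0 x0) (hint x0 x1)]
  have h1 : ∫ x in (0 : ℝ)..x0, Ex (dens ep x) (pos L c e) ≤ 2 := by
    have h2 : ∫ x in (0 : ℝ)..x0, Ex (dens ep x) (pos L c e) ≤ ∫ x in (0 : ℝ)..x0, 2 * Real.sqrt n := by
      refine integral_mono_on hx0pos.le (hint _ _) (by simp) fun x hx => ?_
      exact Ex_trivial L c hc e (dens ep x) x (hside x) hx.1 (hx.2.trans (by linarith))
    rw [integral_const, smul_eq_mul, sub_zero] at h2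
    have := sqrt_le_two_pow n
    rw [← hx0] at this
    linarith
  have h2 : ∫ x in x0..x1, Ex (dens ep x) (pos L c e) ≤ 10 * K := by
    have h3 : ∫ x in x0..x1, Ex (dens ep x) (pos L c e) ≤
        ∫ x in x0..x1, 5 * ∑ j ∈ range (n + 1), RR L c ep j x := by
      refine integral_mono_on hx01 (hint _ _)
        ((continuous_const.mul (continuous_finsetSum _ fun j _ => RR_cont L c ep j)).intervalIntegrable _ _)
        fun x hx => ?_
      have hxpos : 0 < x := lt_of_lt_of_le hx0pos hx.1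
      refine (Ex_dyadic L c hc e (dens ep x) x (hside x) hxpos.le (hx.2.trans hx1') (J := n) ?_ hxpos).trans ?_
      · have h4 : (2 : ℝ) ^ n * x0 = 1 := by
          rw [hx0, ← mul_pow]; norm_num
        have h5 : (2 : ℝ) ^ n * x0 ≤ 2 ^ n * x := mul_le_mul_of_nonneg_left hx.1 (by positivity)
        linarith
      · unfold RR
        rw [sum_comm, mul_sum]
        refine le_of_eq (sum_congr rfl fun B _ => ?_)
        rw [← mul_sum]
        ring
    refine h3.trans ?_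
    rw [integral_const_mul, integral_finsetSum fun j _ => (RR_cont L c ep j).intervalIntegrable _ _]
    have h4 : ∑ j ∈ range (n + 1), ∫ x in x0..x1, RR L c ep j x ≤ ∑ j ∈ range (n + 1), K * (1 / 2) ^ j :=
      sum_le_sum fun j _ => hK j x0 hx0pos.le hx01
    rw [← mul_sum] at h4
    have h5 := sum_geometric_two_le (n + 1)
    have h6 := mul_le_mul_of_nonneg_left h5 hK0
    linarith
  linarith

lemma int_lo (hn : 1 ≤ n) : ∫ x in (0 : ℝ)..1, Ex (dens 1 x) (pos L c 1) ≤ 22 := by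
  have := int_Ex_le L c hc 1 1 (Or.inl ⟨rfl, rfl⟩) hn (x1 := 1) (K := 2) (by norm_num) le_rfl
    (fun j x0 h0 h1 => int_plus L c hc j h0 h1 le_rfl) (by norm_num)
  linarith

lemma int_hi (hn : 1 ≤ n) : ∫ x in (0 : ℝ)..(1 / 2), Ex (dens (-1) x) (pos L c (-1)) ≤ 42 := by
  have := int_Ex_le L c hc (-1) (-1) (Or.inr ⟨rfl, rfl⟩) hn (x1 := 1 / 2) (K := 4) le_rfl (by norm_num)
    (fun j x0 h0 h1 => int_minus L c hc j h0 h1 le_rfl) (by norm_num)
  linarith

end

/-! ### Passing to orderings -/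

/-- sum over the orderings -/
noncomputable def Phi (f : Finset (Fin n) → ℝ) (t : ℕ) : ℝ := ∑ σ : Perm (Fin n), f (act σ t)

lemma act_full (σ : Perm (Fin n)) : act σ n = univ := by
  ext v
  simp [mem_act]

lemma Ex_eq' (p : ℝ) (f : Finset (Fin n) → ℝ) (hf : f univ = 0) :
    (n.factorial : ℝ) * Ex p f = (1 - p) * ∑ t ∈ range n, (n.choose t : ℝ) *
      (p ^ t * (1 - p) ^ (n - 1 - t) * Phi f t) := by
  rw [Ex_eq, sum_range_succ]
  have h1 : ∑ σ : Perm (Fin n), f (act σ n) = 0 := by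
    refine sum_eq_zero fun σ _ => ?_
    rw [act_full, hf]
  rw [h1, mul_zero, mul_zero, add_zero, mul_sum]
  refine sum_congr rfl fun t ht => ?_
  have h2 : n - t = (n - 1 - t) + 1 := by
    have := mem_range.1 ht
    omega
  rw [h2, pow_succ]
  unfold Phi
  ring

/-- upper half kernel -/
noncomputable def Qhi (f : Finset (Fin n) → ℝ) (x : ℝ) : ℝ :=
  ∑ t ∈ range n, (n.choose t : ℝ) * (bet t (n - 1 - t) x * Phi f t)

/-- lower half kernel -/
noncomputable def Qlo (f : Finset (Fin n) → ℝ) (x : ℝ) : ℝ :=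
  ∑ t ∈ range n, (n.choose t : ℝ) * (bet (n - 1 - t) t x * Phi f t)

lemma Qhi_eq (f : Finset (Fin n) → ℝ) (hf : f univ = 0) (x : ℝ) :
    (n.factorial : ℝ) * Ex (dens (-1) x) f = (1 - x) / 2 * Qhi f x := by
  have hd : dens (-1) x = (1 + x) / 2 := by unfold dens; ring
  rw [Ex_eq' _ f hf, hd]
  unfold Qhi bet
  have : 1 - (1 + x) / 2 = (1 - x) / 2 := by ring
  rw [this]

lemma Qlo_eq (f : Finset (Fin n) → ℝ) (hf : f univ = 0) (x : ℝ) :
    (n.factorial : ℝ) * Ex (dens 1 x) f = (1 + x) / 2 * Qlo f x := by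
  have hd : dens 1 x = (1 - x) / 2 := by unfold dens; ring
  rw [Ex_eq' _ f hf, hd]
  unfold Qlo bet
  have : 1 - (1 - x) / 2 = (1 + x) / 2 := by ring
  rw [this]
  congr 1
  refine sum_congr rfl fun t _ => ?_
  ring

lemma Qhi_cont (f : Finset (Fin n) → ℝ) : Continuous (Qhi f) := by
  unfold Qhi bet
  refine continuous_finsetSum _ fun t _ => ?_
  fun_prop

lemma Qlo_cont (f : Finset (Fin n) → ℝ) : Continuous (Qlo f) := by
  unfold Qlo bet
  refine continuous_finsetSum _ fun t _ => ?_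
  fun_prop

lemma Phi_nonneg {f : Finset (Fin n) → ℝ} (hf : ∀ A, 0 ≤ f A) (t : ℕ) : 0 ≤ Phi f t :=
  sum_nonneg fun _ _ => hf _

lemma bet_int_nonneg (a b : ℕ) : 0 ≤ ∫ x in (0 : ℝ)..1, bet a b x := by
  refine integral_nonneg (by norm_num) fun x hx => ?_
  unfold bet
  apply mul_nonneg <;> apply pow_nonneg
  · linarith [hx.1]
  · linarith [hx.2]

lemma sum_hi_le {f : Finset (Fin n) → ℝ} (hf : ∀ A, 0 ≤ f A) :
    ∑ t ∈ Ico (n / 2) n, (1 / ((n : ℝ) - t)) * Phi f t ≤ ∫ x in (0 : ℝ)..1, Qhi f x := by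
  unfold Qhi
  have hI : ∀ t ∈ range n, IntervalIntegrable (fun x : ℝ => (n.choose t : ℝ) * (bet t (n - 1 - t) x * Phi f t))
      MeasureTheory.volume 0 1 :=
    fun t _ => Continuous.intervalIntegrable (by unfold bet; fun_prop) _ _
  rw [integral_finsetSum hI]
  have h1 : ∀ t ∈ range n, ∫ x in (0 : ℝ)..1, (n.choose t : ℝ) * (bet t (n - 1 - t) x * Phi f t) =
      (n.choose t : ℝ) * (∫ x in (0 : ℝ)..1, bet t (n - 1 - t) x) * Phi f t := by
    intro t _
    rw [integral_const_mul, integral_mul_const]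
    ring
  rw [sum_congr rfl h1]
  have h2 : ∑ t ∈ Ico (n / 2) n, (1 / ((n : ℝ) - t)) * Phi f t ≤
      ∑ t ∈ Ico (n / 2) n, (n.choose t : ℝ) * (∫ x in (0 : ℝ)..1, bet t (n - 1 - t) x) * Phi f t := by
    refine sum_le_sum fun t ht => mul_le_mul_of_nonneg_right ?_ (Phi_nonneg hf t)
    rw [mem_Ico] at ht
    exact weight_hi ht.2 (by omega)
  refine h2.trans (sum_le_sum_of_subset_of_nonneg ?_ fun t _ _ => ?_)
  · intro t ht
    rw [mem_Ico] at ht
    exact mem_range.2 ht.2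
  · exact mul_nonneg (mul_nonneg (by positivity) (bet_int_nonneg _ _)) (Phi_nonneg hf t)

lemma sum_lo_le {f : Finset (Fin n) → ℝ} (hf : ∀ A, 0 ≤ f A) :
    ∑ t ∈ range (n / 2), (1 / ((n : ℝ) - t)) * Phi f t ≤ ∫ x in (0 : ℝ)..1, Qlo f x := by
  unfold Qlo
  have hI : ∀ t ∈ range n, IntervalIntegrable (fun x : ℝ => (n.choose t : ℝ) * (bet (n - 1 - t) t x * Phi f t))
      MeasureTheory.volume 0 1 :=
    fun t _ => Continuous.intervalIntegrable (by unfold bet; fun_prop) _ _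
  rw [integral_finsetSum hI]
  have h1 : ∀ t ∈ range n, ∫ x in (0 : ℝ)..1, (n.choose t : ℝ) * (bet (n - 1 - t) t x * Phi f t) =
      (n.choose t : ℝ) * (∫ x in (0 : ℝ)..1, bet (n - 1 - t) t x) * Phi f t := by
    intro t _
    rw [integral_const_mul, integral_mul_const]
    ring
  rw [sum_congr rfl h1]
  have h2 : ∑ t ∈ range (n / 2), (1 / ((n : ℝ) - t)) * Phi f t ≤
      ∑ t ∈ range (n / 2), (n.choose t : ℝ) * (∫ x in (0 : ℝ)..1, bet (n - 1 - t) t x) * Phi f t := by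
    refine sum_le_sum fun t ht => mul_le_mul_of_nonneg_right ?_ (Phi_nonneg hf t)
    rw [mem_range] at ht
    exact weight_lo (by omega) (by omega)
  refine h2.trans (sum_le_sum_of_subset_of_nonneg ?_ fun t _ _ => ?_)
  · intro t ht
    rw [mem_range] at ht ⊢
    omega
  · exact mul_nonneg (mul_nonneg (by positivity) (bet_int_nonneg _ _)) (Phi_nonneg hf t)

section

variable (L : Finset (Fin n)) (c : Fin n → Fin n) (hc : ∀ v ∈ L, c v ∉ L)

lemma pos_univ (e : ℤ) : pos L c e univ = 0 := by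
  simp [pos, sg, lv]

include hc

theorem class_lo (hn : 1 ≤ n) :
    ∑ t ∈ range (n / 2), (1 / ((n : ℝ) - t)) * Phi (pos L c 1) t ≤ 44 * n.factorial := by
  refine (sum_lo_le (pos_nonneg L c 1)).trans ?_
  have h1 : ∫ x in (0 : ℝ)..1, Qlo (pos L c 1) x ≤
      ∫ x in (0 : ℝ)..1, 2 * n.factorial * Ex (dens 1 x) (pos L c 1) := by
    refine integral_mono_on (by norm_num) ((Qlo_cont _).intervalIntegrable _ _)
      ((continuous_const.mul (Ex_cont 1 _)).intervalIntegrable _ _) fun x hx => ?_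
    have h2 := Qlo_eq (pos L c 1) (pos_univ L c 1) x
    have hx0 := hx.1
    have h3 : 0 ≤ (n.factorial : ℝ) * Ex (dens 1 x) (pos L c 1) :=
      mul_nonneg (by positivity) (Ex_nonneg (by unfold dens; linarith [hx.2]) (by unfold dens; linarith)
        (pos_nonneg L c 1))
    have h4 : 0 ≤ Qlo (pos L c 1) x := by
      rw [h2] at h3
      exact nonneg_of_mul_nonneg_right h3 (by linarith)
    nlinarith
  refine h1.trans ?_
  rw [integral_const_mul]
  have h2 := mul_le_mul_of_nonneg_left (int_lo L c hc hn) (show (0 : ℝ) ≤ 2 * n.factorial by positivity)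
  linarith

theorem class_hi (hn : 1 ≤ n) :
    ∑ t ∈ Ico (n / 2) n, (1 / ((n : ℝ) - t)) * Phi (pos L c (-1)) t ≤ 169 * n.factorial := by
  refine (sum_hi_le (pos_nonneg L c (-1))).trans ?_
  have hQ : ∀ a b : ℝ, IntervalIntegrable (Qhi (pos L c (-1))) MeasureTheory.volume a b :=
    fun a b => (Qhi_cont _).intervalIntegrable a b
  rw [← integral_add_adjacent_intervals (hQ 0 (1 / 2)) (hQ (1 / 2) 1)]
  have h1 : ∫ x in (0 : ℝ)..(1 / 2), Qhi (pos L c (-1)) x ≤
      ∫ x in (0 : ℝ)..(1 / 2), 4 * n.factorial * Ex (dens (-1) x) (pos L c (-1)) := by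
    refine integral_mono_on (by norm_num) (hQ _ _)
      ((continuous_const.mul (Ex_cont (-1) _)).intervalIntegrable _ _) fun x hx => ?_
    have h2 := Qhi_eq (pos L c (-1)) (pos_univ L c (-1)) x
    have hx0 := hx.1
    have hx1 := hx.2
    have h3 : 0 ≤ (n.factorial : ℝ) * Ex (dens (-1) x) (pos L c (-1)) :=
      mul_nonneg (by positivity) (Ex_nonneg (by unfold dens; linarith) (by unfold dens; linarith)
        (pos_nonneg L c (-1)))
    have h4 : 0 ≤ Qhi (pos L c (-1)) x := by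
      rw [h2] at h3
      exact nonneg_of_mul_nonneg_right h3 (by linarith)
    nlinarith
  have h2 : ∫ x in (1 / 2 : ℝ)..1, Qhi (pos L c (-1)) x ≤ ∫ x in (1 / 2 : ℝ)..1, 2 * (n.factorial : ℝ) := by
    refine integral_mono_on_of_le_Ioo (by norm_num) (hQ _ _) (by simp) fun x hx => ?_
    have h3 := Qhi_eq (pos L c (-1)) (pos_univ L c (-1)) x
    have hx0 : 1 / 2 < x := hx.1
    have hx1 : x < 1 := hx.2
    have h4 := Ex_far L c hc (-1) (dens (-1) x) x (Or.inr ⟨rfl, by unfold dens; ring⟩) (by linarith)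
      hx1.le hx0.le hx1
    have h5 := mul_le_mul_of_nonneg_left h4 (show (0 : ℝ) ≤ n.factorial by positivity)
    rw [h3] at h5
    have h6 : (1 - x) / 2 * Qhi (pos L c (-1)) x ≤ (1 - x) / 2 * (2 * (n.factorial : ℝ)) := by linarith
    exact le_of_mul_le_mul_left h6 (by linarith)
  rw [integral_const_mul] at h1
  rw [integral_const, smul_eq_mul] at h2
  have h3 := mul_le_mul_of_nonneg_left (int_hi L c hc hn) (show (0 : ℝ) ≤ 4 * n.factorial by positivity)
  linarith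

end

end Pool.Agent.X178.AE
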