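import Mathlib
import Pool.Agent.X178.AE.Tot

/-! Connected graphs: number of components versus tops of a breadth first tree. -/

namespace Pool.Agent.X178.AE

open Finset Equiv

variable {n : ℕ}

lemma exists_par (G : SimpleGraph (Fin n)) (hG : G.Connected) (r v : Fin n) (hv : v ≠ r) :
    ∃ w, G.Adj v w ∧ G.dist w r + 1 = G.dist v r := by
  obtain ⟨p, hp⟩ := hG.exists_walk_length_eq_dist v r
  cases p with
  | nil => exact absurd rfl hv
  | @cons _ w _ hadj q =>
    refine ⟨w, hadj, ?_⟩
    rw [SimpleGraph.Walk.length_cons] at hp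
    have h1 : G.dist w r ≤ q.length := SimpleGraph.dist_le q
    have h2 : G.dist v r ≤ G.dist v w + G.dist w r := hG.dist_triangle
    have h3 : G.dist v w = 1 := SimpleGraph.dist_eq_one_iff_adj.2 hadj
    omega

open Classical in
/-- a parent in a breadth first tree -/
noncomputable def par (G : SimpleGraph (Fin n)) (hG : G.Connected) (r v : Fin n) : Fin n :=
  if hv : v = r then r else (exists_par G hG r v hv).choose

lemma par_spec (G : SimpleGraph (Fin n)) (hG : G.Connected) (r v : Fin n) (hv : v ≠ r) :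
    G.Adj v (par G hG r v) ∧ G.dist (par G hG r v) r + 1 = G.dist v r := by
  unfold par
  rw [dif_neg hv]
  exact (exists_par G hG r v hv).choose_spec

/-- the number of vertices other than the root whose parent is inactive, as a real number -/
noncomputable def tops (c : Fin n → Fin n) (r : Fin n) (A : Finset (Fin n)) : ℝ :=
  ∑ v ∈ (univ : Finset (Fin n)).erase r, (if v ∈ A ∧ c v ∉ A then (1 : ℝ) else 0)

theorem components_le (G : SimpleGraph (Fin n)) (hG : G.Connected) (r : Fin n) (A : Finset (Fin n)) :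
    (Nat.card (G.induce (A : Set (Fin n))).ConnectedComponent : ℝ) ≤ 1 + tops (par G hG r) r A := by
  classical
  set c := par G hG r with hc
  set H := G.induce (A : Set (Fin n)) with hH
  set T : Finset (Fin n) := univ.filter (fun v => v ∈ A ∧ (v = r ∨ c v ∉ A)) with hT
  have hex : ∀ K : H.ConnectedComponent, ∃ x : (A : Set (Fin n)), H.connectedComponentMk x = K ∧
      ∀ y : (A : Set (Fin n)), H.connectedComponentMk y = K → G.dist (x : Fin n) r ≤ G.dist (y : Fin n) r := by
    intro K
    obtain ⟨x0, hx0⟩ := K.exists_rep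
    obtain ⟨x, hx, hmin⟩ := Finset.exists_min_image
      (univ.filter (fun x : (A : Set (Fin n)) => H.connectedComponentMk x = K))
      (fun x => G.dist (x : Fin n) r) ⟨x0, mem_filter.2 ⟨mem_univ _, hx0⟩⟩
    refine ⟨x, (mem_filter.1 hx).2, fun y hy => hmin y (by simpa using hy)⟩
  choose f hf1 hf2 using hex
  have hfT : ∀ K, ((f K : (A : Set (Fin n))) : Fin n) ∈ T := by
    intro K
    rw [hT, mem_filter]
    refine ⟨mem_univ _, (f K).2, ?_⟩
    by_contra hcon
    push Not at hcon
    obtain ⟨h1, h2⟩ := hcon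
    obtain ⟨h3, h4⟩ := par_spec G hG r (f K) h1
    have h5 : H.Adj (f K) ⟨c (f K), h2⟩ := by
      rw [hH, SimpleGraph.comap_adj]
      exact h3
    have h6 : H.connectedComponentMk ⟨c (f K), h2⟩ = K :=
      (SimpleGraph.ConnectedComponent.sound h5.reachable).symm.trans (hf1 K)
    have h7 := hf2 K _ h6
    simp only at h7
    rw [← hc] at h4
    omega
  have h1 : Nat.card H.ConnectedComponent ≤ T.card := by
    have h2 : Nat.card H.ConnectedComponent ≤ Nat.card {v // v ∈ T} := by
      refine Nat.card_le_card_of_injective (fun K => (⟨(f K : Fin n), hfT K⟩ : {v // v ∈ T})) ?_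
      intro K K' h
      simp only [Subtype.mk.injEq] at h
      have h3 : f K = f K' := Subtype.ext h
      rw [← hf1 K, ← hf1 K', h3]
    simpa using h2
  have h2 : T ⊆ insert r ((((univ : Finset (Fin n)).erase r)).filter (fun v => v ∈ A ∧ c v ∉ A)) := by
    intro v hv
    rw [hT, mem_filter] at hv
    rw [mem_insert, mem_filter, mem_erase]
    by_cases h : v = r
    · exact Or.inl h
    · right
      refine ⟨⟨h, mem_univ _⟩, hv.2.1, ?_⟩
      rcases hv.2.2 with h3 | h3
      · exact absurd h3 h
      · exact h3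
  have h3 : T.card ≤ 1 + ((((univ : Finset (Fin n)).erase r)).filter (fun v => v ∈ A ∧ c v ∉ A)).card := by
    have := (card_le_card h2).trans (card_insert_le _ _)
    omega
  have h4 : tops c r A = ((((univ : Finset (Fin n)).erase r)).filter (fun v => v ∈ A ∧ c v ∉ A)).card := by
    unfold tops
    rw [← sum_filter, sum_const, nsmul_eq_mul, mul_one]
  rw [h4]
  exact_mod_cast h1.trans h3

lemma drift_one (A : Finset (Fin n)) (u v : Fin n) (huv : u ≠ v) :
    ∑ w ∈ Aᶜ, ((if v ∈ insert w A ∧ u ∉ insert w A then (1 : ℝ) else 0) -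
      (if v ∈ A ∧ u ∉ A then (1 : ℝ) else 0)) =
      (if u ∉ A then (if v ∈ A then (-1 : ℝ) else 1) else 0) := by
  by_cases hu : u ∈ A
  · simp [hu]
  · by_cases hv : v ∈ A
    · have h1 : ∀ w ∈ Aᶜ, ((if v ∈ insert w A ∧ u ∉ insert w A then (1 : ℝ) else 0) -
          (if v ∈ A ∧ u ∉ A then (1 : ℝ) else 0)) = if u = w then (-1 : ℝ) else 0 := by
        intro w _
        by_cases h : u = w
        · simp [h]
          have : w ∉ A := h ▸ hu
          simp [hv, this]
        · simp [h, hu, hv]
      rw [sum_congr rfl h1, sum_ite_eq, if_pos (by simpa using hu)]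
      simp [hu, hv]
    · have h1 : ∀ w ∈ Aᶜ, ((if v ∈ insert w A ∧ u ∉ insert w A then (1 : ℝ) else 0) -
          (if v ∈ A ∧ u ∉ A then (1 : ℝ) else 0)) = if v = w then (1 : ℝ) else 0 := by
        intro w _
        by_cases h : v = w
        · subst h
          simp [hu, hv, huv]
        · simp [h, hv]
      rw [sum_congr rfl h1, sum_ite_eq, if_pos (by simpa using hv)]
      simp [hu, hv]

lemma drift_tops (c : Fin n → Fin n) (r : Fin n) (hne : ∀ v, v ≠ r → c v ≠ v) (A : Finset (Fin n)) :
    drift (tops c r) A = ∑ v ∈ (univ : Finset (Fin n)).erase r,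
      (if c v ∉ A then (if v ∈ A then (-1 : ℝ) else 1) else 0) := by
  unfold drift tops
  simp only [← sum_sub_distrib]
  rw [sum_comm]
  refine sum_congr rfl fun v hv => ?_
  exact drift_one A (c v) v (hne v (ne_of_mem_erase hv))

lemma sum_lv (L : Finset (Fin n)) (c : Fin n → Fin n) (A : Finset (Fin n)) :
    ∑ v ∈ L, (if c v ∉ A then (if v ∈ A then (-1 : ℝ) else 1) else 0) = (sg L c (-1) A : ℝ) := by
  unfold sg lv
  rw [← sum_filter]
  push_cast
  refine sum_congr rfl fun v _ => ?_
  split_ifs <;> norm_num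

lemma sg_neg (L : Finset (Fin n)) (c : Fin n → Fin n) (A : Finset (Fin n)) :
    sg L c 1 A = -(sg L c (-1) A) := by
  unfold sg
  rw [← sum_neg_distrib]
  refine sum_congr rfl fun v _ => ?_
  split_ifs <;> norm_num

/-- expectation of `tops` at a fixed time -/
lemma sum_tops (c : Fin n → Fin n) (r : Fin n) (hne : ∀ v, v ≠ r → c v ≠ v) (hn : 1 ≤ n) :
    ∑ σ : Perm (Fin n), tops c r (act σ (n / 2)) ≤ n.factorial * ((n : ℝ) / 4) := by
  have ht : n / 2 ≤ n := Nat.div_le_self n 2
  set t := n / 2 with htt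
  have hnpos : (0 : ℝ) < n := by exact_mod_cast hn
  unfold tops
  rw [sum_comm]
  rcases Nat.eq_or_lt_of_le hn with h1 | h1
  · have : ∀ v ∈ (univ : Finset (Fin n)).erase r, False := by
      intro v hv
      apply ne_of_mem_erase hv
      apply Fin.ext
      have := v.2
      have := r.2
      omega
    rw [sum_eq_zero fun v hv => (this v hv).elim]
    positivity
  · have hn1 : (0 : ℝ) < (n : ℝ) - 1 := by
      have : (1 : ℝ) < n := by exact_mod_cast h1
      linarith
    have h2 : ∀ v ∈ (univ : Finset (Fin n)).erase r,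
        ∑ σ : Perm (Fin n), (if v ∈ act σ t ∧ c v ∉ act σ t then (1 : ℝ) else 0) =
        n.factorial * t * ((n : ℝ) - t) / (((n : ℝ) - 1) * n) := by
      intro v hv
      rw [eq_div_iff (by positivity), ← count_two v (c v) (hne v (ne_of_mem_erase hv)).symm ht]
      ring
    rw [sum_congr rfl h2, sum_const, nsmul_eq_mul, card_erase_of_mem (mem_univ r), card_univ,
      Fintype.card_fin, Nat.cast_sub hn, Nat.cast_one]
    have h3 : ((n : ℝ) - 1) * (n.factorial * t * ((n : ℝ) - t) / (((n : ℝ) - 1) * n)) =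
        n.factorial * (t * ((n : ℝ) - t) / n) := by
      field_simp
    rw [h3]
    refine mul_le_mul_of_nonneg_left ?_ (by positivity)
    rw [div_le_div_iff₀ hnpos (by norm_num)]
    nlinarith [sq_nonneg ((n : ℝ) - 2 * t)]

theorem main (G : SimpleGraph (Fin n)) (hG : G.Connected) {alg : Perm (Fin n) → ℕ}
    (h : IsStopping alg) (hle : ∀ σ, alg σ ≤ n) :
    (∑ σ : Perm (Fin n), (Nat.card (G.induce (act σ (alg σ) : Set (Fin n))).ConnectedComponent : ℝ)) ≤
      n.factorial * ((n : ℝ) / 4 + 427) := by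
  have hn : 1 ≤ n := by
    obtain ⟨v⟩ := hG.nonempty
    have := v.2
    omega
  let r : Fin n := ⟨0, hn⟩
  set c := par G hG r with hcdef
  have hspec := par_spec G hG r
  have hne : ∀ v, v ≠ r → c v ≠ v := fun v hv => (hspec v hv).1.ne.symm
  set L0 : Finset (Fin n) := (univ.erase r).filter (fun v => Even (G.dist v r)) with hL0
  set L1 : Finset (Fin n) := (univ.erase r).filter (fun v => ¬ Even (G.dist v r)) with hL1
  have hc0 : ∀ v ∈ L0, c v ∉ L0 := by
    intro v hv hcv
    rw [hL0, mem_filter] at hv hcv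
    have h1 := (hspec v (ne_of_mem_erase hv.1)).2
    have h2 := hv.2
    rw [← h1, Nat.even_add_one] at h2
    exact h2 hcv.2
  have hc1 : ∀ v ∈ L1, c v ∉ L1 := by
    intro v hv hcv
    rw [hL1, mem_filter] at hv hcv
    have h1 := (hspec v (ne_of_mem_erase hv.1)).2
    have h2 := hv.2
    rw [← h1, Nat.even_add_one, not_not] at h2
    exact hcv.2 h2
  have hdrift : ∀ A, drift (tops c r) A = (sg L0 c (-1) A : ℝ) + (sg L1 c (-1) A : ℝ) := by
    intro A
    rw [drift_tops c r hne, ← sum_lv, ← sum_lv, hL0, hL1, sum_filter_add_sum_filter_not]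
  have hpos1 : ∀ A, max (drift (tops c r) A) 0 ≤ pos L0 c (-1) A + pos L1 c (-1) A := by
    intro A
    rw [hdrift]
    unfold pos
    refine max_le ?_ ?_
    · exact add_le_add (le_max_left _ _) (le_max_left _ _)
    · exact add_nonneg (le_max_right _ _) (le_max_right _ _)
  have hpos2 : ∀ A, max (-(drift (tops c r) A)) 0 ≤ pos L0 c 1 A + pos L1 c 1 A := by
    intro A
    rw [hdrift]
    unfold pos
    rw [sg_neg, sg_neg]
    push_cast
    refine max_le ?_ ?_
    · rw [neg_add]
      exact add_le_add (le_max_left _ _) (le_max_left _ _)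
    · exact add_nonneg (le_max_right _ _) (le_max_right _ _)
  have hstop := stopping_le h hle (tops c r) (Nat.div_le_self n 2)
  have hhi : ∑ t ∈ Ico (n / 2) n, (1 / ((n : ℝ) - t)) * ∑ σ : Perm (Fin n), max (drift (tops c r) (act σ t)) 0
      ≤ 338 * n.factorial := by
    have h1 : ∑ t ∈ Ico (n / 2) n, (1 / ((n : ℝ) - t)) * ∑ σ : Perm (Fin n), max (drift (tops c r) (act σ t)) 0
        ≤ ∑ t ∈ Ico (n / 2) n, ((1 / ((n : ℝ) - t)) * Phi (pos L0 c (-1)) t +
          (1 / ((n : ℝ) - t)) * Phi (pos L1 c (-1)) t) := by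
      refine sum_le_sum fun t ht => ?_
      have htn : (t : ℝ) < n := by exact_mod_cast (mem_Ico.1 ht).2
      rw [← mul_add]
      refine mul_le_mul_of_nonneg_left ?_ (by
        have : (0 : ℝ) < (n : ℝ) - t := by linarith
        positivity)
      unfold Phi
      rw [← sum_add_distrib]
      exact sum_le_sum fun σ _ => hpos1 _
    rw [sum_add_distrib] at h1
    have h2 := class_hi L0 c hc0 hn
    have h3 := class_hi L1 c hc1 hn
    linarith
  have hlo : ∑ t ∈ range (n / 2), (1 / ((n : ℝ) - t)) * ∑ σ : Perm (Fin n), max (-(drift (tops c r) (act σ t))) 0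
      ≤ 88 * n.factorial := by
    have h1 : ∑ t ∈ range (n / 2), (1 / ((n : ℝ) - t)) * ∑ σ : Perm (Fin n), max (-(drift (tops c r) (act σ t))) 0
        ≤ ∑ t ∈ range (n / 2), ((1 / ((n : ℝ) - t)) * Phi (pos L0 c 1) t +
          (1 / ((n : ℝ) - t)) * Phi (pos L1 c 1) t) := by
      refine sum_le_sum fun t ht => ?_
      have htn : (t : ℝ) < n := by
        have := mem_range.1 ht
        have h2 : t < n := by omega
        exact_mod_cast h2
      rw [← mul_add]
      refine mul_le_mul_of_nonneg_left ?_ (by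
        have : (0 : ℝ) < (n : ℝ) - t := by linarith
        positivity)
      unfold Phi
      rw [← sum_add_distrib]
      exact sum_le_sum fun σ _ => hpos2 _
    rw [sum_add_distrib] at h1
    have h2 := class_lo L0 c hc0 hn
    have h3 := class_lo L1 c hc1 hn
    linarith
  have hbase := sum_tops c r hne hn
  have hcomp : (∑ σ : Perm (Fin n), (Nat.card (G.induce (act σ (alg σ) : Set (Fin n))).ConnectedComponent : ℝ)) ≤
      n.factorial + ∑ σ : Perm (Fin n), tops c r (act σ (alg σ)) := by
    have h1 : (∑ σ : Perm (Fin n), (Nat.card (G.induce (act σ (alg σ) : Set (Fin n))).ConnectedComponent : ℝ)) ≤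
        ∑ σ : Perm (Fin n), (1 + tops c r (act σ (alg σ))) :=
      sum_le_sum fun σ _ => components_le G hG r _
    rw [sum_add_distrib, sum_const, nsmul_eq_mul, card_univ, Fintype.card_perm, Fintype.card_fin, mul_one] at h1
    exact h1
  linarith

end Pool.Agent.X178.AE
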